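import Pool.Agent.W959.EntTree

/-!
# Cells computed on a blackboard, entangled pairs, data structures
-/

set_option autoImplicit false

namespace Pool.Agent.W959.Ent

open Pool.Agent.W959

/-- A protocol of `k` players, each of whom knows one element of `X`, who write bits on a common
blackboard; its result is in `V`. In `speak l f next` the player `l` writes the bit `f x`, where `x`
is his input; `f` and who speaks next depend on the bits on the blackboard. -/
inductive Board (k : ℕ) (X V : Type) : Type
  | done (v : V) : Board k X V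
  | speak (l : Fin k) (f : X → Bool) (next : Bool → Board k X V) : Board k X V

/-- the result of the protocol on the inputs `F` -/
def Board.run {k : ℕ} {X V : Type} (F : Fin k → X) : Board k X V → V
  | .done v => v
  | .speak l f next => (next (f (F l))).run F

/-- the number of bits written by the player `i` on the inputs `F` -/
def Board.bits {k : ℕ} {X V : Type} (F : Fin k → X) (i : Fin k) : Board k X V → ℕ
  | .done _ => 0
  | .speak l f next => (next (f (F l))).bits F i + if l = i then 1 else 0

/-- the bits written by the players `i` and `j` -/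
def Board.trace {k : ℕ} {X V : Type} (F : Fin k → X) (i j : Fin k) : Board k X V → List Bool
  | .done _ => []
  | .speak l f next =>
    if l = i ∨ l = j then f (F l) :: (next (f (F l))).trace F i j
    else (next (f (F l))).trace F i j

theorem Board.length_trace {k : ℕ} {X V : Type} (F : Fin k → X) {i j : Fin k} (hij : i ≠ j)
    (B : Board k X V) : (B.trace F i j).length = B.bits F i + B.bits F j := by
  induction B with
  | done v => rfl
  | speak l f next ih =>
    simp only [Board.trace, Board.bits]
    by_cases h : l = i ∨ l = j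
    · rw [if_pos h, List.length_cons, ih]
      rcases h with h | h
      · subst h
        rw [if_pos rfl, if_neg hij]
        omega
      · subst h
        rw [if_pos rfl, if_neg (Ne.symm hij)]
        omega
    · rw [if_neg h, ih]
      rw [not_or] at h
      rw [if_neg h.1, if_neg h.2]
      omega

theorem Board.mix {k : ℕ} {X V : Type} {F F' F'' : Fin k → X} {i j : Fin k}
    (hi : F'' i = F i) (hj : F'' j = F' j)
    (hl : ∀ l, l ≠ i → l ≠ j → F'' l = F l ∧ F' l = F l) (B : Board k X V)
    (h : B.trace F i j = B.trace F' i j) :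
    B.run F'' = B.run F ∧ (∀ l, B.bits F'' l = B.bits F l) ∧
      B.trace F'' i j = B.trace F i j := by
  induction B with
  | done v => exact ⟨rfl, fun _ => rfl, rfl⟩
  | speak l f next ih =>
    simp only [Board.trace, Board.bits, Board.run] at h ⊢
    by_cases h1 : l = i ∨ l = j
    · rw [if_pos h1, if_pos h1] at h
      have h2 := List.cons.inj h
      have h3 : f (F'' l) = f (F l) := by
        by_cases hli : l = i
        · rw [hli, hi]
        · have hlj : l = j := h1.resolve_left hli
          rw [hlj, hj, ← hlj]
          exact h2.1.symm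
      rw [if_pos h1, if_pos h1, h3]
      have h4 := h2.2
      rw [← h2.1] at h4
      obtain ⟨e1, e2, e3⟩ := ih (f (F l)) h4
      exact ⟨e1, fun l' => by rw [e2], by rw [e3]⟩
    · rw [if_neg h1, if_neg h1] at h
      have h2 := not_or.1 h1
      obtain ⟨e4, e5⟩ := hl l h2.1 h2.2
      rw [e5] at h
      rw [if_neg h1, if_neg h1, e4]
      obtain ⟨e1, e2, e3⟩ := ih (f (F l)) h
      exact ⟨e1, fun l' => by rw [e2], e3⟩

theorem Board.silent {k : ℕ} {X V : Type} {F F' : Fin k → X} {i : Fin k}
    (hl : ∀ l, l ≠ i → F' l = F l) (B : Board k X V) (h : B.bits F i = 0) :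
    B.run F' = B.run F ∧ ∀ l, B.bits F' l = B.bits F l := by
  induction B with
  | done v => exact ⟨rfl, fun _ => rfl⟩
  | speak l f next ih =>
    simp only [Board.bits, Board.run] at h ⊢
    by_cases h1 : l = i
    · rw [if_pos h1] at h
      omega
    · rw [hl l h1]
      obtain ⟨e1, e2⟩ := ih (f (F l)) (by omega)
      exact ⟨e1, fun l' => by rw [e2]⟩

/-- change the sets number `i` and `j` of a family -/
def upd {k : ℕ} {X : Type} (F : Fin k → X) (i j : Fin k) (x y : X) : Fin k → X :=
  Function.update (Function.update F i x) j y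

theorem upd_left {k : ℕ} {X : Type} (F : Fin k → X) {i j : Fin k} (hij : i ≠ j) (x y : X) :
    upd F i j x y i = x := by
  simp [upd, Function.update_of_ne hij]

theorem upd_right {k : ℕ} {X : Type} (F : Fin k → X) (i j : Fin k) (x y : X) :
    upd F i j x y j = y := by
  simp [upd]

theorem upd_other {k : ℕ} {X : Type} (F : Fin k → X) {i j l : Fin k} (hi : l ≠ i) (hj : l ≠ j)
    (x y : X) : upd F i j x y l = F l := by
  simp [upd, Function.update_of_ne hi, Function.update_of_ne hj]

/-- The labels of the rectangles -/
abbrev Lab (w b : ℕ) : Type := Fin (2 ^ w) ⊕ (Fin (2 ^ w) ⊕ (Fin (b + 1) × (Fin b → Bool)))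

theorem card_lab {w b : ℕ} (hb : 1 ≤ b) (hwb : w ≤ b) : Fintype.card (Lab w b) ≤ 2 ^ (3 * b) := by
  have h1 : Fintype.card (Lab w b) = 2 ^ w + (2 ^ w + (b + 1) * 2 ^ b) := by
    simp [Lab]
  have h2 : 2 ^ w ≤ 2 ^ b := Nat.pow_le_pow_right (by norm_num) hwb
  have h3 : b + 3 ≤ 4 ^ b := by
    clear h1 h2 hwb
    induction b with
    | zero => omega
    | succ b ih =>
      rcases Nat.eq_zero_or_pos b with h | h
      · subst h; norm_num
      · have := ih h
        rw [pow_succ]
        omega
  have h4 : 2 ^ (3 * b) = 4 ^ b * 2 ^ b := by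
    rw [show (4 : ℕ) = 2 ^ 2 by norm_num, ← pow_mul, ← pow_add]
    congr 1
    omega
  rw [h1, h4]
  calc 2 ^ w + (2 ^ w + (b + 1) * 2 ^ b) ≤ 2 ^ b + (2 ^ b + (b + 1) * 2 ^ b) := by omega
    _ = (b + 3) * 2 ^ b := by ring
    _ ≤ _ := Nat.mul_le_mul_right _ h3

/-- code of a short transcript -/
def code (b : ℕ) (t : List Bool) (h : t.length ≤ b) : Fin (b + 1) × (Fin b → Bool) :=
  (⟨t.length, by omega⟩, fun i => t.getD i false)

theorem code_inj {b : ℕ} {t t' : List Bool} {h : t.length ≤ b} {h' : t'.length ≤ b}
    (he : code b t h = code b t' h') : t = t' := by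
  simp only [code, Prod.mk.injEq, Fin.mk.injEq] at he
  obtain ⟨h1, h2⟩ := he
  apply List.ext_getElem h1
  intro i hi hi'
  have := congrFun h2 ⟨i, by omega⟩
  simp only [List.getD_eq_getElem?_getD, List.getElem?_eq_getElem hi,
    List.getElem?_eq_getElem hi', Option.getD_some] at this
  exact this

/-- the label of the pair of sets `x`, `y`, for the pair `(i, j)` and the other sets as in `F` -/
def lab {k : ℕ} {X : Type} {w : ℕ} (b : ℕ) (B : Board k X (Fin (2 ^ w))) (F : Fin k → X)
    (i j : Fin k) (hij : i ≠ j) (x y : X) : Option (Lab w b) :=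
  if B.bits (upd F i j x y) i = 0 then some (.inl (B.run (upd F i j x y)))
  else if B.bits (upd F i j x y) j = 0 then some (.inr (.inl (B.run (upd F i j x y))))
  else if h : B.bits (upd F i j x y) i + B.bits (upd F i j x y) j ≤ b then
    some (.inr (.inr (code b (B.trace (upd F i j x y) i j)
      ((Board.length_trace _ hij B).trans_le h))))
  else none

theorem lab_none {k : ℕ} {X : Type} {w b : ℕ} {B : Board k X (Fin (2 ^ w))} {F : Fin k → X}
    {i j : Fin k} {hij : i ≠ j} {x y : X} (h : lab b B F i j hij x y = none) :
    0 < B.bits (upd F i j x y) i ∧ 0 < B.bits (upd F i j x y) j ∧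
      b < B.bits (upd F i j x y) i + B.bits (upd F i j x y) j := by
  unfold lab at h
  split_ifs at h with h1 h2 h3
  exact ⟨by omega, by omega, by omega⟩

theorem lab_inl {k : ℕ} {X : Type} {w b : ℕ} {B : Board k X (Fin (2 ^ w))} {F : Fin k → X}
    {i j : Fin k} {hij : i ≠ j} {x y : X} {v : Fin (2 ^ w)} :
    lab b B F i j hij x y = some (.inl v) ↔
      B.bits (upd F i j x y) i = 0 ∧ B.run (upd F i j x y) = v := by
  unfold lab
  split_ifs with h1 h2 h3 <;> simp [h1]

theorem lab_inr_inl {k : ℕ} {X : Type} {w b : ℕ} {B : Board k X (Fin (2 ^ w))} {F : Fin k → X}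
    {i j : Fin k} {hij : i ≠ j} {x y : X} {v : Fin (2 ^ w)} :
    lab b B F i j hij x y = some (.inr (.inl v)) ↔
      B.bits (upd F i j x y) i ≠ 0 ∧ B.bits (upd F i j x y) j = 0 ∧
        B.run (upd F i j x y) = v := by
  unfold lab
  split_ifs with h1 h2 h3
  · simp [h1]
  · simp [h1, h2]
  · simp [h1, h2]
  · simp [h1, h2]

theorem lab_inr_inr {k : ℕ} {X : Type} {w b : ℕ} {B : Board k X (Fin (2 ^ w))} {F : Fin k → X}
    {i j : Fin k} {hij : i ≠ j} {x y : X} {v : Fin (b + 1) × (Fin b → Bool)} :
    lab b B F i j hij x y = some (.inr (.inr v)) ↔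
      B.bits (upd F i j x y) i ≠ 0 ∧ B.bits (upd F i j x y) j ≠ 0 ∧
        ∃ h : (B.trace (upd F i j x y) i j).length ≤ b,
          code b (B.trace (upd F i j x y) i j) h = v := by
  unfold lab
  split_ifs with h1 h2 h3
  · simp [h1]
  · simp [h1, h2]
  · simp only [Option.some.injEq, Sum.inr.injEq, h1, h2, ne_eq, not_false_eq_true, true_and]
    constructor
    · intro h
      exact ⟨_, h⟩
    · rintro ⟨_, h⟩
      exact h
  · simp only [ne_eq, h1, h2, not_false_eq_true, true_and, false_iff, not_exists]
    intro h4
    rw [Board.length_trace _ hij] at h4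
    exact absurd h4 h3

theorem lab_spec {k : ℕ} {X : Type} {w b : ℕ} (B : Board k X (Fin (2 ^ w))) (F : Fin k → X)
    {i j : Fin k} (hij : i ≠ j) (x x' y y' : X) (l : Lab w b)
    (h : lab b B F i j hij x y = some l) (h' : lab b B F i j hij x' y' = some l) :
    lab b B F i j hij x y' = some l ∧
      B.run (upd F i j x y) = B.run (upd F i j x' y') := by
  rcases l with v | v | v
  · rw [lab_inl] at h h' ⊢
    -- player `i` is silent on `(x', y')`, hence on `(x, y')`
    obtain ⟨e1, e2⟩ := Board.silent (F := upd F i j x' y') (F' := upd F i j x y') (i := i)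
      (by
        intro l hl
        by_cases hlj : l = j
        · subst hlj
          rw [upd_right, upd_right]
        · rw [upd_other F hl hlj, upd_other F hl hlj]) B h'.1
    refine ⟨⟨by rw [e2]; exact h'.1, by rw [e1]; exact h'.2⟩, by rw [h.2, h'.2]⟩
  · rw [lab_inr_inl] at h h' ⊢
    obtain ⟨e1, e2⟩ := Board.silent (F := upd F i j x y) (F' := upd F i j x y') (i := j)
      (by
        intro l hl
        by_cases hli : l = i
        · subst hli
          rw [upd_left F hij, upd_left F hij]
        · rw [upd_other F hli hl, upd_other F hli hl]) B h.2.1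
    exact ⟨⟨by rw [e2]; exact h.1, by rw [e2]; exact h.2.1, by rw [e1]; exact h.2.2⟩,
      by rw [h.2.2, h'.2.2]⟩
  · rw [lab_inr_inr] at h h' ⊢
    obtain ⟨h1, h2, h3, h4⟩ := h
    obtain ⟨h1', h2', h3', h4'⟩ := h'
    have ht : B.trace (upd F i j x y) i j = B.trace (upd F i j x' y') i j :=
      code_inj (h4.trans h4'.symm)
    obtain ⟨e1, e2, e3⟩ := Board.mix (F := upd F i j x y) (F' := upd F i j x' y')
      (F'' := upd F i j x y') (i := i) (j := j) (by rw [upd_left F hij, upd_left F hij])
      (by rw [upd_right, upd_right])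
      (fun l hi hj => by
        rw [upd_other F hi hj, upd_other F hi hj, upd_other F hi hj]
        exact ⟨rfl, rfl⟩) B ht
    obtain ⟨g1, g2, g3⟩ := Board.mix (F := upd F i j x' y') (F' := upd F i j x y)
      (F'' := upd F i j x y') (i := j) (j := i) (by rw [upd_right, upd_right])
      (by rw [upd_left F hij, upd_left F hij])
      (fun l hj hi => by
        rw [upd_other F hi hj, upd_other F hi hj, upd_other F hi hj]
        exact ⟨rfl, rfl⟩) B (by
          have hsym : ∀ G : Fin k → X, B.trace G j i = B.trace G i j := by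
            intro G
            clear ht h4 h4' h3 h3' h1 h2 h1' h2' e1 e2 e3
            induction B with
            | done v => rfl
            | speak l f next ih =>
              simp only [Board.trace]
              rw [ih]
              by_cases hh : l = i ∨ l = j
              · rw [if_pos hh, if_pos hh.symm]
              · rw [if_neg hh, if_neg fun h => hh h.symm]
          rw [hsym, hsym]
          exact ht.symm)
    refine ⟨⟨by rw [e2]; exact h1, by rw [e2]; exact h2, ?_⟩, by rw [← e1, ← g1]⟩
    have h5 : (B.trace (upd F i j x y') i j).length ≤ b := by rw [e3]; exact h3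
    refine ⟨h5, ?_⟩
    rw [← h4]
    congr 1

end Pool.Agent.W959.Ent
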