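import Pool.Agent.W959.EntMain

/-!
# SetIntersection: end of the proof
-/

set_option autoImplicit false

namespace Pool.Agent.W959.Ent

open Pool.Agent.W959

/-- the family with the given characteristic vectors -/
def famOf {k n : ℕ} (G : Fin k → Fin n → Bool) : Fin k → Finset (Fin n) := fun l => setOf (G l)

theorem famOf_upd {k n : ℕ} (G : Fin k → Fin n → Bool) (i j : Fin k) (x y : Fin n → Bool) :
    famOf (upd G i j x y) = upd (famOf G) i j (setOf x) (setOf y) := by
  funext l
  simp only [famOf, upd, Function.update_apply]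
  split_ifs <;> rfl

/-- the cells which entangle the pair `(i, j)` -/
def DS.own {k n w s : ℕ} (D : DS k n w s) (b : ℕ) (F : Fin k → Finset (Fin n)) (i j : Fin k) :
    Finset (Fin s) :=
  Finset.univ.filter fun c => 0 < (D.cell c).bits F i ∧
    0 < (D.cell c).bits F j ∧ b < (D.cell c).bits F i + (D.cell c).bits F j

theorem pair_lower {C T : ℝ} {b w m u k s n : ℕ} (hC : 1 ≤ C) (hb : 1 ≤ b) (hw : 1 ≤ w)
    (hwb : w ≤ b) (hT : 0 ≤ T) (hm : 1500 * (C * b) ≤ m) (hu : 300 ≤ u) (hTu : 300 * T ≤ u)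
    (hn : n = m ^ 2 * u)
    {Ω : Type} [Fintype Ω] (p : Ω → ℝ) (D : Ω → DS k n w s) (hD : Solves p D C T)
    {i j : Fin k} (hij : i < j) (G : Fin k → Fin n → Bool) :
    (u : ℝ) / (4000 * (w * C)) ≤ ∑ ω, p ω * ex2 (1 / (m : ℝ)) n (fun x y =>
      (((D ω).own b (famOf (upd G i j x y)) i j).card : ℝ)) := by
  classical
  obtain ⟨hp0, hp1, hgood⟩ := hD
  have hb' : (1 : ℝ) ≤ b := by exact_mod_cast hb
  have hw' : (1 : ℝ) ≤ w := by exact_mod_cast hw
  have hu' : (300 : ℝ) ≤ u := by exact_mod_cast hu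
  have hC0 : 0 < C := by linarith
  have hCb : 1 ≤ C * b := by nlinarith
  have hm' : (1500 : ℝ) ≤ m := by linarith
  have hm10 : 10 ≤ m := by
    have : (10 : ℝ) ≤ m := by linarith
    exact_mod_cast this
  have hm0 : (0 : ℝ) < m := by linarith
  have hinv : 1 / (m : ℝ) ≤ 1 / 10 := by
    apply one_div_le_one_div_of_le <;> linarith
  have hinv0 : 0 < 1 / (m : ℝ) := by positivity
  have hr1 : 0 ≤ 1 - 1 / (m : ℝ) := by linarith
  obtain ⟨d, hd⟩ : ∃ d, d = ⌊C * (T + 4 * u)⌋₊ := ⟨_, rfl⟩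
  have hd1 : (d : ℝ) ≤ C * (T + 4 * u) := by rw [hd]; exact Nat.floor_le (by positivity)
  obtain ⟨a, ha⟩ : ∃ a, a = ⌊(u : ℝ) / (500 * w * C)⌋₊ := ⟨_, rfl⟩
  have ha1 : (a : ℝ) ≤ u / (500 * w * C) := by rw [ha]; exact Nat.floor_le (by positivity)
  have ha2 : (u : ℝ) / (500 * w * C) ≤ a + 1 := by
    rw [ha]; exact (Nat.lt_floor_add_one _).le
  have ha0 : (0 : ℝ) < a + 1 := by positivity
  have hne : i ≠ j := hij.ne
  -- contents of the cells
  let φ : Ω → Fin s → (Fin n → Bool) → (Fin n → Bool) → Fin (2 ^ w) := fun ω c x y =>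
    ((D ω).cell c).run (upd (famOf G) i j (setOf x) (setOf y))
  let q : Ω → Fin s → (Fin n → Bool) → (Fin n → Bool) → Option (Lab w b) := fun ω c x y =>
    lab b ((D ω).cell c) (famOf G) i j hne (setOf x) (setOf y)
  let t : Ω → QTree s (Fin (2 ^ w)) (Finset (Fin n)) := fun ω =>
    ((D ω).query i j).prune fun _ => none
  -- the event
  let E : Ω → (Fin n → Bool) → (Fin n → Bool) → Prop := fun ω x y =>
    (t ω).cost (fun c => φ ω c x y) ≤ d ∧
      (t ω).bad (fun c => φ ω c x y) (fun c => q ω c x y = none) ≤ a ∧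
      conj x y = toBits ((t ω).run (fun c => φ ω c x y)) ∧ n - 4 * u ≤ nz (conj x y)
  have hE : ∀ ω, ex2 (1 / (m : ℝ)) n (fun x y => ind (E ω x y)) ≤ 1 / 8 := by
    intro ω
    have h1 := tree_bound hm10 n (3 * b) w s (n - 4 * u) (φ ω) (card_lab hb hwb) (q ω)
      (fun c x x' y y' l h h' => (lab_spec ((D ω).cell c) (famOf G) hne _ _ _ _ l h h').1)
      (fun c x x' y y' l h h' => (lab_spec ((D ω).cell c) (famOf G) hne _ _ _ _ l h h').2)
      (ε := 1 / (500 * C)) (by positivity) (by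
        rw [div_le_one (by positivity)]
        linarith) (t ω) d a (f := fun _ => 1) (g := fun _ => 1) (fun _ => zero_le_one)
      (fun _ => zero_le_one)
    have hn1 : nrm m n (fun _ => 1) = 1 := by
      simp only [nrm, Real.one_rpow, ex_const]
    rw [hn1, mul_one, mul_one] at h1
    simp only [one_mul] at h1
    refine h1.trans ?_
    have := numeric (T := T) (d := d) (b := b) (m := m) (u := u) hC hb hw hm hu hTu hd1 ha1
    rw [hn]
    exact this
  -- pointwise bound
  have hpt : ∀ x y : Fin n → Bool, (1 : ℝ) / 2 ≤ ∑ ω, p ω * (ind (E ω x y) +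
      1 / (a + 1) * (((D ω).own b (famOf (upd G i j x y)) i j).card : ℝ)) +
      1 / (4 * (u : ℝ)) * ((setOf x ∩ setOf y).card : ℝ) := by
    intro x y
    have hterm : ∀ ω, 0 ≤ ind (E ω x y) +
      1 / ((a : ℝ) + 1) * (((D ω).own b (famOf (upd G i j x y)) i j).card : ℝ) := by
      intro ω
      have := ind_nonneg (E ω x y)
      positivity
    by_cases hc : (setOf x ∩ setOf y).card ≤ 4 * u
    · have h1 := hgood (famOf (upd G i j x y)) i j hne
      have h2 : 0 ≤ 1 / (4 * (u : ℝ)) * ((setOf x ∩ setOf y).card : ℝ) := by positivity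
      refine h1.trans (le_trans ?_ (le_add_of_nonneg_right h2))
      apply Finset.sum_le_sum
      intro ω _
      split_ifs with h3
      · have h4 : (1 : ℝ) ≤ ind (E ω x y) +
            1 / (a + 1) * (((D ω).own b (famOf (upd G i j x y)) i j).card : ℝ) := by
          by_cases hown : ((D ω).own b (famOf (upd G i j x y)) i j).card ≤ a
          · rw [ind_true]
            · have : 0 ≤ 1 / ((a : ℝ) + 1) *
                (((D ω).own b (famOf (upd G i j x y)) i j).card : ℝ) := by positivity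
              linarith
            · obtain ⟨h4, h5⟩ := h3
              have hfam : (fun c => φ ω c x y) = (D ω).mem (famOf (upd G i j x y)) := by
                funext c
                simp only [φ, DS.mem, famOf_upd]
              have hi : famOf (upd G i j x y) i = setOf x := by
                rw [famOf, upd_left G hne]
              have hj : famOf (upd G i j x y) j = setOf y := by
                rw [famOf, upd_right]
              obtain ⟨g1, g2, g3⟩ := QTree.prune_spec (fun c => φ ω c x y)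
                (fun c => q ω c x y = none) ((D ω).query i j) (fun _ => none)
                (fun c v h => by simp at h)
              rw [hi, hj, ← hfam] at h4 h5
              refine ⟨?_, ?_, ?_, ?_⟩
              · refine le_trans g2 ?_
                rw [hd]
                apply Nat.le_floor
                refine le_trans h5 ?_
                have : ((setOf x ∩ setOf y).card : ℝ) ≤ 4 * u := by exact_mod_cast hc
                gcongr
              · refine le_trans g3 (le_trans ?_ hown)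
                rw [← Set.ncard_coe_finset]
                apply Set.ncard_le_ncard _ (Set.toFinite _)
                rintro c ⟨h6, _⟩
                rw [Finset.mem_coe, DS.own, Finset.mem_filter]
                refine ⟨Finset.mem_univ _, ?_⟩
                rw [famOf_upd]
                exact lab_none h6
              · have g1' : (t ω).run (fun c => φ ω c x y) = setOf x ∩ setOf y := g1.trans h4
                rw [g1']
                exact conj_eq_toBits x y
              · rw [conj_eq_toBits]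
                have := nz_toBits (setOf x ∩ setOf y)
                omega
          · push Not at hown
            have h6 : (1 : ℝ) ≤ 1 / (a + 1) *
                (((D ω).own b (famOf (upd G i j x y)) i j).card : ℝ) := by
              rw [one_div, inv_mul_eq_div, le_div_iff₀ ha0, one_mul]
              exact_mod_cast hown
            have := ind_nonneg (E ω x y)
            linarith
        calc p ω = p ω * 1 := (mul_one _).symm
          _ ≤ _ := mul_le_mul_of_nonneg_left h4 (hp0 ω)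
      · exact mul_nonneg (hp0 ω) (hterm ω)
    · push Not at hc
      have h1 : (1 : ℝ) ≤ 1 / (4 * (u : ℝ)) * ((setOf x ∩ setOf y).card : ℝ) := by
        rw [one_div, inv_mul_eq_div, le_div_iff₀ (by positivity), one_mul]
        exact_mod_cast hc.le
      have h2 : 0 ≤ ∑ ω, p ω * (ind (E ω x y) +
          1 / (a + 1) * (((D ω).own b (famOf (upd G i j x y)) i j).card : ℝ)) :=
        Finset.sum_nonneg fun ω _ => mul_nonneg (hp0 ω) (hterm ω)
      linarith
  have e1 := ex2_mono hinv0.le hr1 n hpt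
  rw [ex2_const, ex2_add, ex2_sum, ex2_mul, ex2_card] at e1
  simp only [ex2_mul, ex2_add] at e1
  have e3 : 1 / (4 * (u : ℝ)) * ((n : ℝ) * (1 / (m : ℝ)) ^ 2) = 1 / 4 := by
    rw [hn]
    push_cast
    field_simp
  rw [e3] at e1
  set Z := ∑ ω, p ω * ex2 (1 / (m : ℝ)) n (fun x y =>
      (((D ω).own b (famOf (upd G i j x y)) i j).card : ℝ)) with hZ
  have h2 : ∑ ω, p ω * (ex2 (1 / (m : ℝ)) n (fun x y => ind (E ω x y)) +
      1 / (a + 1) * ex2 (1 / (m : ℝ)) n (fun x y =>
      (((D ω).own b (famOf (upd G i j x y)) i j).card : ℝ))) ≤ 1 / 8 + 1 / (a + 1) * Z := by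
    calc _ ≤ ∑ ω, p ω * (1 / 8 + 1 / (a + 1) * ex2 (1 / (m : ℝ)) n (fun x y =>
          (((D ω).own b (famOf (upd G i j x y)) i j).card : ℝ))) := by
          apply Finset.sum_le_sum
          intro ω _
          apply mul_le_mul_of_nonneg_left _ (hp0 ω)
          have := hE ω
          linarith
      _ = (∑ ω, p ω) * (1 / 8) + 1 / (a + 1) * Z := by
          rw [hZ, Finset.sum_mul, Finset.mul_sum, ← Finset.sum_add_distrib]
          apply Finset.sum_congr rfl
          intro ω _
          ring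
      _ = _ := by rw [hp1, one_mul]
  have h3 : (1 : ℝ) / 8 ≤ 1 / (a + 1) * Z := by linarith
  rw [one_div_mul_eq_div, le_div_iff₀ ha0] at h3
  calc (u : ℝ) / (4000 * (w * C)) = 1 / 8 * (u / (500 * w * C)) := by field_simp; ring
    _ ≤ 1 / 8 * (a + 1) := by gcongr
    _ ≤ Z := h3

theorem card_pairs (k : ℕ) (hk : 2 ≤ k) :
    (k : ℝ) ^ 2 / 4 ≤ ((Finset.univ.filter fun e : Fin k × Fin k => e.1 < e.2).card : ℝ) := by
  have h1 : (Finset.univ.filter fun e : Fin k × Fin k => e.1 < e.2).card =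
      ∑ i ∈ Finset.range k, i := by
    rw [Finset.card_filter, Fintype.sum_prod_type_right, ← Fin.sum_univ_eq_sum_range (fun i => i) k]
    apply Finset.sum_congr rfl
    intro j _
    rw [← Finset.card_filter]
    have : (Finset.univ.filter fun i : Fin k => i < j) = Finset.Iio j := by
      ext i
      simp
    rw [this, Fin.card_Iio]
  have h2 : (∑ i ∈ Finset.range k, i) * 2 = k * (k - 1) := Finset.sum_range_id_mul_two k
  have h3 : ((∑ i ∈ Finset.range k, i : ℕ) : ℝ) * 2 = k * (k - 1) := by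
    have h4 : (((∑ i ∈ Finset.range k, i) * 2 : ℕ) : ℝ) = ((k * (k - 1) : ℕ) : ℝ) := by rw [h2]
    rw [Nat.cast_mul, Nat.cast_mul, Nat.cast_sub (by omega)] at h4
    simpa using h4
  rw [h1]
  have hk' : (2 : ℝ) ≤ k := by exact_mod_cast hk
  nlinarith

/-- double counting of the entangled pairs -/
theorem sum_own {k n w s : ℕ} (D : DS k n w s) (b : ℕ) (F : Fin k → Finset (Fin n)) :
    ∑ e ∈ Finset.univ.filter (fun e : Fin k × Fin k => e.1 < e.2),
      ((D.own b F e.1 e.2).card : ℝ) = ∑ c, ((D.entangled b F c).card : ℝ) := by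
  classical
  have h1 : ∀ e : Fin k × Fin k, ((D.own b F e.1 e.2).card : ℝ) = ∑ c, if
      (0 < (D.cell c).bits F e.1 ∧ 0 < (D.cell c).bits F e.2 ∧
        b < (D.cell c).bits F e.1 + (D.cell c).bits F e.2) then 1 else 0 := by
    intro e
    rw [DS.own, Finset.card_filter]
    push_cast
    rfl
  have h2 : ∀ c : Fin s, ((D.entangled b F c).card : ℝ) =
      ∑ e ∈ Finset.univ.filter (fun e : Fin k × Fin k => e.1 < e.2), if
      (0 < (D.cell c).bits F e.1 ∧ 0 < (D.cell c).bits F e.2 ∧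
        b < (D.cell c).bits F e.1 + (D.cell c).bits F e.2) then 1 else 0 := by
    intro c
    rw [DS.entangled, ← Finset.filter_filter, Finset.card_filter]
    push_cast
    rfl
  simp only [h1, h2]
  rw [Finset.sum_comm]

/-- **Main theorem.** -/
theorem main (N w b : ℕ) (C T : ℝ) (hw : 1 ≤ w) (hwb : w ≤ b) (hC : 1 ≤ C) (hT : 1 ≤ T)
    (hN : 10 ^ 10 * (C * b) ^ 2 * T ≤ N) :
    ∃ k n : ℕ, k * n ≤ N ∧ ∀ (s : ℕ) (Ω : Type) [Fintype Ω] (p : Ω → ℝ) (D : Ω → DS k n w s),
      Solves p D C T → ∀ R : ℝ,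
      (∀ (ω : Ω) (F : Fin k → Finset (Fin n)), ∑ c, (((D ω).entangled b F c).card : ℝ) ≤ R) →
      (N : ℝ) ^ 2 ≤ 10 ^ 21 * (C ^ 5 * b ^ 4 * w * T * R) := by
  classical
  have hb : 1 ≤ b := hw.trans hwb
  have hb' : (1 : ℝ) ≤ b := by exact_mod_cast hb
  have hw' : (1 : ℝ) ≤ w := by exact_mod_cast hw
  have hCb : 1 ≤ C * b := by nlinarith
  obtain ⟨x, hx⟩ : ∃ x : ℝ, x = C * b := ⟨_, rfl⟩
  have hx1 : 1 ≤ x := by rw [hx]; exact hCb
  obtain ⟨m, hm1, hm2⟩ : ∃ m : ℕ, 1500 * x ≤ m ∧ (m : ℝ) ≤ 1501 * x := by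
    refine ⟨⌈1500 * x⌉₊, Nat.le_ceil _, ?_⟩
    have := Nat.ceil_lt_add_one (show 0 ≤ 1500 * x by linarith)
    linarith
  obtain ⟨u, hu1, hu2, hu3⟩ : ∃ u : ℕ, 300 ≤ u ∧ 300 * T ≤ u ∧ (u : ℝ) ≤ 600 * T := by
    refine ⟨300 * ⌈T⌉₊, ?_, ?_, ?_⟩
    · have : 1 ≤ ⌈T⌉₊ := Nat.one_le_ceil_iff.2 (by linarith)
      omega
    · push_cast
      have := Nat.le_ceil T
      linarith
    · push_cast
      have := Nat.ceil_lt_add_one (show 0 ≤ T by linarith)
      linarith
  have hu' : (300 : ℝ) ≤ u := by exact_mod_cast hu1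
  have hm' : (1500 : ℝ) ≤ m := by linarith
  obtain ⟨n, hn⟩ : ∃ n, n = m ^ 2 * u := ⟨_, rfl⟩
  have hn' : (n : ℝ) = (m : ℝ) ^ 2 * u := by rw [hn]; push_cast; ring
  have hn0 : 0 < (n : ℝ) := by rw [hn']; positivity
  have hm2' : (m : ℝ) ^ 2 ≤ (1501 * x) ^ 2 := pow_le_pow_left₀ (by linarith) hm2 2
  have h2n : 2 * (n : ℝ) ≤ N := by
    rw [← hx] at hN
    refine le_trans ?_ hN
    rw [hn']
    calc 2 * ((m : ℝ) ^ 2 * u) ≤ 2 * ((1501 * x) ^ 2 * (600 * T)) := by gcongr
      _ ≤ 10 ^ 10 * x ^ 2 * T := by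
        have : 0 ≤ x ^ 2 * T := by positivity
        nlinarith
  have h2n' : 2 * n ≤ N := by exact_mod_cast h2n
  have hnpos : 0 < n := by exact_mod_cast hn0
  refine ⟨N / n, n, Nat.div_mul_le_self N n, ?_⟩
  intro s Ω _ p D hD R hR
  have hk2 : 2 ≤ N / n := (Nat.le_div_iff_mul_le hnpos).2 h2n'
  have hkN : (N : ℝ) ≤ 2 * n * (N / n : ℕ) := by
    have h1 : N < n * (N / n + 1) := Nat.lt_mul_div_succ N hnpos
    have h2 : (N : ℝ) < n * ((N / n : ℕ) + 1) := by exact_mod_cast h1
    have h3 : (2 : ℝ) ≤ (N / n : ℕ) := by exact_mod_cast hk2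
    nlinarith
  obtain ⟨k, hk⟩ : ∃ k, k = N / n := ⟨_, rfl⟩
  rw [← hk] at hk2 hkN
  revert D
  rw [← hk]
  intro D hD hR
  have hP := card_pairs k hk2
  have hinv0 : 0 < 1 / (m : ℝ) := by positivity
  have hr1 : 0 ≤ 1 - 1 / (m : ℝ) := by
    have : 1 / (m : ℝ) ≤ 1 := by
      rw [div_le_one (by linarith)]; linarith
    linarith
  have hp0 := hD.1
  have hp1 := hD.2.1
  have hμ0 : ∀ a : Fin n → Bool, 0 ≤ mu (1 / (m : ℝ)) n a := fun a =>
    ex_nonneg hinv0.le hr1 n fun _ => ind_nonneg _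
  have hW0 : ∀ G : Fin k → Fin n → Bool, 0 ≤ ∏ l, mu (1 / (m : ℝ)) n (G l) := fun G =>
    Finset.prod_nonneg fun l _ => hμ0 _
  -- the bound for one pair, for random families
  have hpair : ∀ e ∈ Finset.univ.filter (fun e : Fin k × Fin k => e.1 < e.2),
      (u : ℝ) / (4000 * (w * C)) ≤ ∑ ω, p ω * ∑ G : Fin k → Fin n → Bool,
        (∏ l, mu (1 / (m : ℝ)) n (G l)) * (((D ω).own b (famOf G) e.1 e.2).card : ℝ) := by
    intro e he
    have hlt := (Finset.mem_filter.1 he).2
    have h1 : ∀ G : Fin k → Fin n → Bool, (∏ l, mu (1 / (m : ℝ)) n (G l)) *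
        ((u : ℝ) / (4000 * (w * C))) ≤ (∏ l, mu (1 / (m : ℝ)) n (G l)) *
        ∑ ω, p ω * ex2 (1 / (m : ℝ)) n (fun x y =>
          (((D ω).own b (famOf (upd G e.1 e.2 x y)) e.1 e.2).card : ℝ)) := fun G =>
      mul_le_mul_of_nonneg_left (pair_lower hC hb hw hwb (by linarith) (by rw [← hx]; exact hm1)
        hu1 hu2 hn p D hD hlt G) (hW0 G)
    have h2 := Finset.sum_le_sum fun G (_ : G ∈ Finset.univ) => h1 G
    rw [← Finset.sum_mul, sum_weights, one_mul] at h2
    refine h2.trans (le_of_eq ?_)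
    have h3 : ∀ ω, ∑ G : Fin k → Fin n → Bool,
        (∏ l, mu (1 / (m : ℝ)) n (G l)) * (((D ω).own b (famOf G) e.1 e.2).card : ℝ) =
        ∑ G : Fin k → Fin n → Bool, (∏ l, mu (1 / (m : ℝ)) n (G l)) *
          ex2 (1 / (m : ℝ)) n (fun x y =>
          (((D ω).own b (famOf (upd G e.1 e.2 x y)) e.1 e.2).card : ℝ)) := fun ω =>
      resample2 (i := e.1) (j := e.2) fun G => (((D ω).own b (famOf G) e.1 e.2).card : ℝ)
    simp only [h3]
    simp only [Finset.mul_sum]
    rw [Finset.sum_comm]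
    apply Finset.sum_congr rfl
    intro ω _
    apply Finset.sum_congr rfl
    intro G _
    ring
  have hlow : ((Finset.univ.filter fun e : Fin k × Fin k => e.1 < e.2).card : ℝ) *
      ((u : ℝ) / (4000 * (w * C))) ≤ R := by
    have h2 := Finset.card_nsmul_le_sum _ _ _ hpair
    rw [nsmul_eq_mul] at h2
    refine h2.trans ?_
    rw [Finset.sum_comm]
    calc _ = ∑ ω, p ω * ∑ G : Fin k → Fin n → Bool, (∏ l, mu (1 / (m : ℝ)) n (G l)) *
          ∑ c, (((D ω).entangled b (famOf G) c).card : ℝ) := by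
          apply Finset.sum_congr rfl
          intro ω _
          rw [← Finset.mul_sum, Finset.sum_comm]
          congr 1
          apply Finset.sum_congr rfl
          intro G _
          rw [← Finset.mul_sum, sum_own]
      _ ≤ ∑ ω, p ω * ∑ G : Fin k → Fin n → Bool, (∏ l, mu (1 / (m : ℝ)) n (G l)) * R := by
          apply Finset.sum_le_sum
          intro ω _
          apply mul_le_mul_of_nonneg_left _ (hp0 ω)
          apply Finset.sum_le_sum
          intro G _
          exact mul_le_mul_of_nonneg_left (hR ω _) (hW0 G)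
      _ = R := by
          rw [← Finset.sum_mul, hp1, one_mul, ← Finset.sum_mul, sum_weights, one_mul]
  have hw0 : (0 : ℝ) < w := by linarith
  have hC0 : 0 < C := by linarith
  have hu0 : (0 : ℝ) < u := by linarith
  have h1 : (k : ℝ) ^ 2 / 4 * ((u : ℝ) / (4000 * (w * C))) ≤ R := by
    refine le_trans ?_ hlow
    gcongr
  have h2 : (N : ℝ) ^ 2 ≤ (2 * n * k) ^ 2 := pow_le_pow_left₀ (by positivity) hkN 2
  have h3 : (k : ℝ) ^ 2 * u ≤ 16000 * (w * C) * R := by
    have e1 : (k : ℝ) ^ 2 / 4 * ((u : ℝ) / (4000 * (w * C))) =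
        (k : ℝ) ^ 2 * u / (16000 * (w * C)) := by
      field_simp
      ring
    rw [e1, div_le_iff₀ (by positivity)] at h1
    linarith
  have hR0 : 0 ≤ R := by
    have : 0 ≤ (k : ℝ) ^ 2 / 4 * ((u : ℝ) / (4000 * (w * C))) := by positivity
    linarith
  have hm4 : (m : ℝ) ^ 4 ≤ (1501 * x) ^ 4 := pow_le_pow_left₀ (by linarith) hm2 4
  calc (N : ℝ) ^ 2 ≤ (2 * n * k) ^ 2 := h2
    _ = 4 * (m : ℝ) ^ 4 * u * ((k : ℝ) ^ 2 * u) := by rw [hn']; ring
    _ ≤ 4 * (1501 * x) ^ 4 * (600 * T) * (16000 * (w * C) * R) := by gcongr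
    _ = (4 * 1501 ^ 4 * 600 * 16000) * (x ^ 4 * C * w * T * R) := by ring
    _ ≤ 10 ^ 21 * (x ^ 4 * C * w * T * R) := by
        have : 0 ≤ x ^ 4 * C * w * T * R := by positivity
        nlinarith
    _ = _ := by rw [hx]; ring

end Pool.Agent.W959.Ent
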