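import Pool.Agent.W959.EntBoard

/-!
# SetIntersection: the total entanglement of a data structure
-/

set_option autoImplicit false

namespace Pool.Agent.W959.Ent

open Pool.Agent.W959

/-- A data structure for families of `k` subsets of a universe with `n` elements: a memory of `s`
cells of `w` bits, and an adaptive query procedure for each pair of indices. The contents of the
cell `c` is given by a blackboard protocol `cell c` of arbitrary length with one player for each set
of the family (every function of the family is the result of such a protocol). -/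
structure DS (k n w s : ℕ) where
  cell : Fin s → Board k (Finset (Fin n)) (Fin (2 ^ w))
  query : Fin k → Fin k → QTree s (Fin (2 ^ w)) (Finset (Fin n))

/-- the memory for the family `F` -/
def DS.mem {k n w s : ℕ} (D : DS k n w s) (F : Fin k → Finset (Fin n)) : Fin s → Fin (2 ^ w) :=
  fun c => (D.cell c).run F

/-- The query `(i, j)` is answered correctly on the family `F`, and at most `C * (T + op)` cells are
read, where `op` is the size of the intersection. -/
def DS.Good {k n w s : ℕ} (D : DS k n w s) (C T : ℝ) (F : Fin k → Finset (Fin n)) (i j : Fin k) :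
    Prop :=
  (D.query i j).run (D.mem F) = F i ∩ F j ∧
    ((D.query i j).cost (D.mem F) : ℝ) ≤ C * (T + (F i ∩ F j).card)

open Classical in
/-- The random data structure `D` (with probabilities `p`) solves SetIntersection with query time
`C * (T + op)`: on every family, every query is `Good` with probability at least `1 / 2`. -/
def Solves {k n w s : ℕ} {Ω : Type} [Fintype Ω] (p : Ω → ℝ) (D : Ω → DS k n w s) (C T : ℝ) :
    Prop :=
  (∀ ω, 0 ≤ p ω) ∧ ∑ ω, p ω = 1 ∧ ∀ (F : Fin k → Finset (Fin n)) (i j : Fin k), i ≠ j →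
    1 / 2 ≤ ∑ ω, if (D ω).Good C T F i j then p ω else 0

/-- The pairs entangled by the cell `c` on the family `F`: the pairs `i < j` such that in the
computation of the contents of `c` both the set `i` and the set `j` write on the blackboard, and
together they write more than `b` bits. -/
def DS.entangled {k n w s : ℕ} (D : DS k n w s) (b : ℕ) (F : Fin k → Finset (Fin n)) (c : Fin s) :
    Finset (Fin k × Fin k) :=
  Finset.univ.filter fun e => e.1 < e.2 ∧ 0 < (D.cell c).bits F e.1 ∧
    0 < (D.cell c).bits F e.2 ∧ b < (D.cell c).bits F e.1 + (D.cell c).bits F e.2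

/-! ### the distribution of the families -/

/-- the set with the given characteristic vector -/
def setOf {n : ℕ} (x : Fin n → Bool) : Finset (Fin n) := Finset.univ.filter fun i => x i = true

theorem conj_eq_toBits {n : ℕ} (x y : Fin n → Bool) : conj x y = toBits (setOf x ∩ setOf y) := by
  funext i
  simp only [conj, toBits, setOf, Finset.mem_inter, Finset.mem_filter, Finset.mem_univ, true_and]
  cases x i <;> cases y i <;> simp

theorem nz_toBits {n : ℕ} (Z : Finset (Fin n)) : nz (toBits Z) + Z.card = n := by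
  classical
  have h1 : (Finset.univ.filter fun i => toBits Z i = false) = Zᶜ := by
    ext i
    simp [toBits]
  rw [nz, h1, Finset.card_compl, Fintype.card_fin]
  have := Finset.card_le_univ Z
  rw [Fintype.card_fin] at this
  omega

theorem ex_coord {r : ℝ} (n : ℕ) (i : Fin n) : ex r n (fun x => ind (x i = true)) = r := by
  induction n with
  | zero => exact i.elim0
  | succ n ih =>
    refine Fin.cases ?_ (fun j => ?_) i
    · simp only [ex, Fin.cons_zero]
      rw [ex_const, ex_const, ind_false (by simp), ind_true trivial]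
      ring
    · simp only [ex, Fin.cons_succ]
      rw [ih j]
      ring

theorem ind_and (P Q : Prop) : ind P * ind Q = ind (P ∧ Q) := by
  by_cases h1 : P
  · by_cases h2 : Q
    · rw [ind_true h1, ind_true h2, ind_true ⟨h1, h2⟩, one_mul]
    · rw [ind_false h2, ind_false (fun h : P ∧ Q => h2 h.2), mul_zero]
  · rw [ind_false h1, ind_false (fun h : P ∧ Q => h1 h.1), zero_mul]

theorem ex2_card {r : ℝ} (n : ℕ) :
    ex2 r n (fun x y => ((setOf x ∩ setOf y).card : ℝ)) = n * r ^ 2 := by
  have h1 : ∀ x y : Fin n → Bool, ((setOf x ∩ setOf y).card : ℝ) =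
      ∑ i, ind (x i = true) * ind (y i = true) := by
    intro x y
    have h2 : setOf x ∩ setOf y = Finset.univ.filter fun i => x i = true ∧ y i = true := by
      ext i
      simp [setOf]
    rw [h2, Finset.card_filter, Nat.cast_sum]
    apply Finset.sum_congr rfl
    intro i _
    rw [ind_and]
    by_cases h : x i = true ∧ y i = true
    · rw [ind_true h, if_pos h, Nat.cast_one]
    · rw [ind_false h, if_neg h, Nat.cast_zero]
  simp only [h1]
  rw [ex2_sum]
  simp only [ex2_prod, ex_coord]
  rw [Finset.sum_const, Finset.card_univ, Fintype.card_fin, nsmul_eq_mul]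
  ring

/-- probability of a vector -/
noncomputable def mu (r : ℝ) (n : ℕ) (a : Fin n → Bool) : ℝ := ex r n fun x => ind (x = a)

theorem ex_eq_sum {r : ℝ} (n : ℕ) (f : (Fin n → Bool) → ℝ) : ex r n f = ∑ a, mu r n a * f a := by
  have h1 : f = fun x => ∑ a, f a * ind (x = a) := by
    funext x
    rw [Finset.sum_eq_single x]
    · rw [ind_true rfl, mul_one]
    · intro a _ ha
      rw [ind_false fun h => ha h.symm, mul_zero]
    · intro h
      exact absurd (Finset.mem_univ _) h
  conv_lhs => rw [h1]
  rw [ex_sum]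
  apply Finset.sum_congr rfl
  intro a _
  rw [ex_mul, mu, mul_comm]

theorem sum_mu {r : ℝ} (n : ℕ) : ∑ a, mu r n a = 1 := by
  have h := ex_eq_sum (r := r) n fun _ => 1
  rw [ex_const] at h
  rw [h]
  apply Finset.sum_congr rfl
  intro a _
  rw [mul_one]

/-- resampling of one coordinate -/
theorem resample {k : ℕ} {X : Type} [Fintype X] [DecidableEq X] (μ : X → ℝ) (hμ : ∑ x, μ x = 1)
    (i : Fin k) (h : (Fin k → X) → ℝ) :
    ∑ F, (∏ l, μ (F l)) * h F =
      ∑ F, (∏ l, μ (F l)) * ∑ x, μ x * h (Function.update F i x) := by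
  have h1 : ∑ F : Fin k → X, (∏ l, μ (F l)) * ∑ x, μ x * h (Function.update F i x) =
      ∑ z : (Fin k → X) × X, (∏ l, μ (z.1 l)) * μ z.2 * h (Function.update z.1 i z.2) := by
    rw [Fintype.sum_prod_type]
    apply Finset.sum_congr rfl
    intro F _
    rw [Finset.mul_sum]
    apply Finset.sum_congr rfl
    intro x _
    ring
  have h2 : ∑ F : Fin k → X, (∏ l, μ (F l)) * h F =
      ∑ z : (Fin k → X) × X, (∏ l, μ (z.1 l)) * μ z.2 * h z.1 := by
    rw [Fintype.sum_prod_type]
    apply Finset.sum_congr rfl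
    intro F _
    simp only []
    rw [← Finset.sum_mul, ← Finset.mul_sum, hμ, mul_one]
  rw [h1, h2]
  let σ : (Fin k → X) × X → (Fin k → X) × X := fun z => (Function.update z.1 i z.2, z.1 i)
  have hσ : Function.Involutive σ := by
    rintro ⟨F, x⟩
    simp [σ]
  symm
  rw [← Equiv.sum_comp hσ.toPerm]
  apply Finset.sum_congr rfl
  rintro ⟨F, x⟩ _
  simp only [Function.Involutive.coe_toPerm, σ]
  have e1 : Function.update (Function.update F i x) i (F i) = F := by simp
  rw [e1]
  congr 1
  have e2 : ∏ l, μ (Function.update F i x l) = μ x * ∏ l ∈ Finset.univ.erase i, μ (F l) := by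
    rw [← Finset.mul_prod_erase Finset.univ _ (Finset.mem_univ i)]
    rw [Function.update_self]
    congr 1
    apply Finset.prod_congr rfl
    intro l hl
    rw [Function.update_of_ne (Finset.ne_of_mem_erase hl)]
  have e3 : ∏ l, μ (F l) = μ (F i) * ∏ l ∈ Finset.univ.erase i, μ (F l) := by
    rw [← Finset.mul_prod_erase Finset.univ _ (Finset.mem_univ i)]
  rw [e2, e3]
  ring

theorem resample2 {k n : ℕ} {r : ℝ} {i j : Fin k}
    (h : (Fin k → Fin n → Bool) → ℝ) :
    ∑ F, (∏ l, mu r n (F l)) * h F =
      ∑ F, (∏ l, mu r n (F l)) * ex2 r n (fun x y => h (upd F i j x y)) := by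
  rw [resample (mu r n) (sum_mu n) j h, resample (mu r n) (sum_mu n) i]
  apply Finset.sum_congr rfl
  intro F _
  congr 1
  rw [ex2, ex_eq_sum]
  apply Finset.sum_congr rfl
  intro x _
  rw [ex_eq_sum]
  rfl

theorem sum_weights {k n : ℕ} {r : ℝ} : ∑ F : Fin k → Fin n → Bool, ∏ l, mu r n (F l) = 1 := by
  have := Finset.prod_univ_sum (fun _ : Fin k => (Finset.univ : Finset (Fin n → Bool)))
    (fun _ a => mu r n a)
  rw [Fintype.piFinset_univ] at this
  rw [← this]
  simp [sum_mu]

/-! ### one pair -/

/-- numerical part of the bound for one pair -/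
theorem numeric {C T : ℝ} {b w m u d a : ℕ} (hC : 1 ≤ C) (hb : 1 ≤ b) (hw : 1 ≤ w)
    (hm : 1500 * (C * b) ≤ m) (hu : 300 ≤ u) (hTu : 300 * T ≤ u)
    (hd : (d : ℝ) ≤ C * (T + 4 * u)) (ha : (a : ℝ) ≤ u / (500 * w * C)) :
    (((2 : ℝ) ^ (3 * b)) ^ (1 / ((m : ℝ) + 1)) * (1 + 1 / (500 * C))) ^ d *
      ((2 : ℝ) ^ w / (1 / (500 * C))) ^ a *
        (1 - 1 / (22 * (m : ℝ) ^ 2)) ^ (m ^ 2 * u - 4 * u) ≤ 1 / 8 := by
  have hb' : (1 : ℝ) ≤ b := by exact_mod_cast hb
  have hw' : (1 : ℝ) ≤ w := by exact_mod_cast hw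
  have hu' : (300 : ℝ) ≤ u := by exact_mod_cast hu
  have hCb : 1 ≤ C * b := by nlinarith
  have hm' : (1500 : ℝ) ≤ m := by linarith
  have hC0 : 0 < C := by linarith
  have hm4 : 4 ≤ m ^ 2 := by
    have : 2 ≤ m := by
      have : (2 : ℝ) ≤ m := by linarith
      exact_mod_cast this
    nlinarith
  have hm0 : (0 : ℝ) < m := by linarith
  have hlog : Real.log 2 < 0.6931471808 := Real.log_two_lt_d9
  have hlog0 : 0 < Real.log 2 := Real.log_pos (by norm_num)
  have hd5 : (d : ℝ) ≤ 5 * C * u := by
    refine hd.trans ?_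
    have : C * (T + 4 * u) ≤ C * (5 * u) := by
      apply mul_le_mul_of_nonneg_left _ hC0.le
      linarith
    linarith
  -- the factors as exponentials
  have e1 : (((2 : ℝ) ^ (3 * b)) ^ (1 / ((m : ℝ) + 1))) ^ d ≤ Real.exp (0.007 * u) := by
    have h1 : (((2 : ℝ) ^ (3 * b)) ^ (1 / ((m : ℝ) + 1))) ^ d =
        Real.exp (3 * b * d / ((m : ℝ) + 1) * Real.log 2) := by
      rw [← Real.rpow_natCast (((2 : ℝ) ^ (3 * b)) ^ (1 / ((m : ℝ) + 1))) d,
        ← Real.rpow_mul (by positivity), Real.rpow_def_of_pos (by positivity), Real.log_pow]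
      congr 1
      push_cast
      ring
    rw [h1]
    apply Real.exp_le_exp.2
    have h2 : 3 * b * d / ((m : ℝ) + 1) ≤ u / 100 := by
      rw [div_le_iff₀ (by positivity)]
      calc 3 * (b : ℝ) * d ≤ 3 * b * (5 * C * u) := by gcongr
        _ = u / 100 * (1500 * (C * b)) := by ring
        _ ≤ u / 100 * (m + 1) := by gcongr; linarith
    calc 3 * b * d / ((m : ℝ) + 1) * Real.log 2 ≤ u / 100 * 0.6931471808 := by gcongr
      _ ≤ _ := by linarith
  have e2 : (1 + 1 / (500 * C)) ^ d ≤ Real.exp (0.01 * u) := by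
    have h1 : 1 + 1 / (500 * C) ≤ Real.exp (1 / (500 * C)) := by
      have := Real.add_one_le_exp (1 / (500 * C))
      linarith
    calc (1 + 1 / (500 * C)) ^ d ≤ Real.exp (1 / (500 * C)) ^ d :=
          pow_le_pow_left₀ (by positivity) h1 _
      _ = Real.exp (d * (1 / (500 * C))) := by rw [← Real.exp_nat_mul]
      _ ≤ _ := by
        apply Real.exp_le_exp.2
        calc (d : ℝ) * (1 / (500 * C)) ≤ (5 * C * u) * (1 / (500 * C)) := by gcongr
          _ = 0.01 * u := by field_simp; ring
  have e3 : ((2 : ℝ) ^ w / (1 / (500 * C))) ^ a ≤ Real.exp (0.014 * u) := by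
    have h0 : (2 : ℝ) ^ w / (1 / (500 * C)) = Real.exp (w * Real.log 2 + Real.log (500 * C)) := by
      rw [Real.exp_add, Real.exp_log (by positivity), ← Real.log_pow,
        Real.exp_log (by positivity)]
      field_simp
    rw [h0, ← Real.exp_nat_mul]
    apply Real.exp_le_exp.2
    have h1 : Real.log (500 * C) ≤ 6.3 * C := by
      have h2 : Real.log (500 * C) = Real.log 500 + Real.log C := by
        rw [Real.log_mul (by norm_num) hC0.ne']
      have h3 : Real.log C ≤ C - 1 := Real.log_le_sub_one_of_pos hC0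
      have h4 : Real.log 500 ≤ 6.3 := by
        have h5 : Real.log 500 ≤ Real.log (2 ^ 9) := by
          apply Real.log_le_log (by norm_num) (by norm_num)
        rw [Real.log_pow] at h5
        push_cast at h5
        linarith
      rw [h2]
      nlinarith
    have h2 : w * Real.log 2 + Real.log (500 * C) ≤ 7 * (w * C) := by
      have h3 : w * Real.log 2 ≤ w * 0.6931471808 := by gcongr
      have h4 : (w : ℝ) ≤ w * C := by nlinarith
      have h5 : C ≤ w * C := by nlinarith
      linarith
    calc (a : ℝ) * (w * Real.log 2 + Real.log (500 * C)) ≤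
          u / (500 * w * C) * (7 * (w * C)) := by
          apply mul_le_mul ha h2 _ (by positivity)
          have : 0 ≤ Real.log (500 * C) := Real.log_nonneg (by linarith)
          positivity
      _ = 0.014 * u := by field_simp; ring
  have e4 : (1 - 1 / (22 * (m : ℝ) ^ 2)) ^ (m ^ 2 * u - 4 * u) ≤ Real.exp (-(0.045 * u)) := by
    have h0 : 0 ≤ 1 - 1 / (22 * (m : ℝ) ^ 2) := by
      have : 1 / (22 * (m : ℝ) ^ 2) ≤ 1 := by
        rw [div_le_one (by positivity)]
        nlinarith
      linarith
    have h1 : 1 - 1 / (22 * (m : ℝ) ^ 2) ≤ Real.exp (-(1 / (22 * (m : ℝ) ^ 2))) := by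
      have := Real.add_one_le_exp (-(1 / (22 * (m : ℝ) ^ 2)))
      linarith
    calc (1 - 1 / (22 * (m : ℝ) ^ 2)) ^ (m ^ 2 * u - 4 * u)
        ≤ (Real.exp (-(1 / (22 * (m : ℝ) ^ 2)))) ^ (m ^ 2 * u - 4 * u) :=
          pow_le_pow_left₀ h0 h1 _
      _ = Real.exp (((m ^ 2 * u - 4 * u : ℕ) : ℝ) * (-(1 / (22 * (m : ℝ) ^ 2)))) := by
          rw [← Real.exp_nat_mul]
      _ ≤ _ := by
          apply Real.exp_le_exp.2
          have h2 : ((m ^ 2 * u - 4 * u : ℕ) : ℝ) = (m : ℝ) ^ 2 * u - 4 * u := by
            rw [Nat.cast_sub (by nlinarith)]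
            push_cast
            ring
          rw [h2]
          have h3 : ((m : ℝ) ^ 2 * u - 4 * u) * (-(1 / (22 * (m : ℝ) ^ 2))) =
              -(u / 22 * (1 - 4 / (m : ℝ) ^ 2)) := by
            field_simp
          rw [h3]
          have h4 : 4 / (m : ℝ) ^ 2 ≤ 0.001 := by
            rw [div_le_iff₀ (by positivity)]
            nlinarith
          have h5 : 0.045 * (u : ℝ) ≤ u / 22 * 0.999 := by linarith
          have h6 : (u : ℝ) / 22 * 0.999 ≤ u / 22 * (1 - 4 / (m : ℝ) ^ 2) := by
            apply mul_le_mul_of_nonneg_left _ (by positivity)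
            linarith
          linarith
  have h0 : 0 ≤ 1 - 1 / (22 * (m : ℝ) ^ 2) := by
    have : 1 / (22 * (m : ℝ) ^ 2) ≤ 1 := by
      rw [div_le_one (by positivity)]
      nlinarith
    linarith
  rw [mul_pow]
  calc _ ≤ Real.exp (0.007 * u) * Real.exp (0.01 * u) * Real.exp (0.014 * u) *
        Real.exp (-(0.045 * u)) := by gcongr
    _ = Real.exp (-(0.014 * u)) := by
        rw [← Real.exp_add, ← Real.exp_add, ← Real.exp_add]
        congr 1
        ring
    _ ≤ Real.exp (-3) := by
        apply Real.exp_le_exp.2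
        linarith
    _ ≤ 1 / 8 := by
        rw [Real.exp_neg]
        have h3 : (8 : ℝ) ≤ Real.exp 3 := by
          have h4 : (2 : ℝ) ≤ Real.exp 1 := by
            have := Real.add_one_le_exp (1 : ℝ)
            linarith
          have h5 : Real.exp 3 = Real.exp 1 ^ 3 := by
            rw [← Real.exp_nat_mul]
            norm_num
          rw [h5]
          calc (8 : ℝ) = 2 ^ 3 := by norm_num
            _ ≤ _ := pow_le_pow_left₀ (by norm_num) h4 3
        rw [one_div]
        exact inv_anti₀ (by norm_num) h3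

end Pool.Agent.W959.Ent
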