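import Pool.Agent.W959.Tensor

/-!
# Adaptive queries to cells which are separable outside of an exceptional set
-/

set_option autoImplicit false

namespace Pool.Agent.W959.Ent

open Pool.Agent.W959

/-- An adaptive query procedure which reads cells (with contents in `V`) and returns a result in
`R`. -/
inductive QTree (s : ℕ) (V R : Type) : Type
  | out (a : R) : QTree s V R
  | probe (c : Fin s) (next : V → QTree s V R) : QTree s V R

/-- the result of the procedure on the given memory -/
def QTree.run {s : ℕ} {V R : Type} (mem : Fin s → V) : QTree s V R → R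
  | .out a => a
  | .probe c next => (next (mem c)).run mem

/-- the number of cells read on the given memory -/
def QTree.cost {s : ℕ} {V R : Type} (mem : Fin s → V) : QTree s V R → ℕ
  | .out _ => 0
  | .probe c next => (next (mem c)).cost mem + 1

open Classical in
/-- the number of cells with the property `P` read on the given memory -/
noncomputable def QTree.bad {s : ℕ} {V R : Type} (mem : Fin s → V) (P : Fin s → Prop) :
    QTree s V R → ℕ
  | .out _ => 0
  | .probe c next => (next (mem c)).bad mem P + if P c then 1 else 0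

/-- remove repeated probes -/
def QTree.prune {s : ℕ} {V R : Type} : QTree s V R → (Fin s → Option V) → QTree s V R
  | .out a, _ => .out a
  | .probe c next, known =>
    match known c with
    | some v => (next v).prune known
    | none => .probe c fun v => (next v).prune (Function.update known c (some v))

theorem QTree.prune_spec {s : ℕ} {V R : Type} (mem : Fin s → V) (P : Fin s → Prop)
    (t : QTree s V R) : ∀ known : Fin s → Option V, (∀ c v, known c = some v → mem c = v) →
      (t.prune known).run mem = t.run mem ∧ (t.prune known).cost mem ≤ t.cost mem ∧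
      (t.prune known).bad mem P ≤ Set.ncard {c | P c ∧ known c = none} := by
  classical
  induction t with
  | out a =>
    intro known _
    refine ⟨rfl, le_rfl, ?_⟩
    simp [QTree.prune, QTree.bad]
  | probe c next ih =>
    intro known hk
    cases hc : known c with
    | some v =>
      have hv := hk c v hc
      have e1 : (QTree.probe c next).prune known = (next v).prune known := by
        simp [QTree.prune, hc]
      obtain ⟨h1, h2, h3⟩ := ih v known hk
      rw [e1]
      refine ⟨?_, ?_, h3⟩
      · rw [h1, QTree.run, hv]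
      · rw [QTree.cost, hv]; omega
    | none =>
      have e1 : (QTree.probe c next).prune known =
          .probe c fun v => (next v).prune (Function.update known c (some v)) := by
        simp [QTree.prune, hc]
      have hk' : ∀ c' v, Function.update known c (some (mem c)) c' = some v → mem c' = v := by
        intro c' v h
        by_cases hcc : c' = c
        · subst hcc
          rw [Function.update_self] at h
          exact Option.some.inj h
        · rw [Function.update_of_ne hcc] at h
          exact hk c' v h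
      obtain ⟨h1, h2, h3⟩ := ih (mem c) (Function.update known c (some (mem c))) hk'
      rw [e1]
      refine ⟨?_, ?_, ?_⟩
      · simp only [QTree.run]; exact h1
      · simp only [QTree.cost]; omega
      · simp only [QTree.bad]
        have hfin : ({c' | P c' ∧ known c' = none} : Set (Fin s)).Finite := Set.toFinite _
        by_cases hP : P c
        · rw [if_pos hP]
          have hss : insert c {c' | P c' ∧ Function.update known c (some (mem c)) c' = none} ⊆
              {c' | P c' ∧ known c' = none} := by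
            rintro c' (rfl | ⟨h4, h5⟩)
            · exact ⟨hP, hc⟩
            · by_cases hcc : c' = c
              · subst hcc
                rw [Function.update_self] at h5
                exact absurd h5 (by simp)
              · rw [Function.update_of_ne hcc] at h5
                exact ⟨h4, h5⟩
          have hn : c ∉ {c' | P c' ∧ Function.update known c (some (mem c)) c' = none} := by
            rintro ⟨_, h5⟩
            rw [Function.update_self] at h5
            exact absurd h5 (by simp)
          have h6 := Set.ncard_le_ncard hss hfin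
          rw [Set.ncard_insert_of_notMem hn (Set.toFinite _)] at h6
          omega
        · rw [if_neg hP]
          refine h3.trans (Set.ncard_le_ncard ?_ hfin)
          rintro c' ⟨h4, h5⟩
          by_cases hcc : c' = c
          · subst hcc; exact absurd h4 hP
          · rw [Function.update_of_ne hcc] at h5
            exact ⟨h4, h5⟩

/-- the characteristic vector of a set -/
def toBits {n : ℕ} (Z : Finset (Fin n)) : Fin n → Bool := fun i => decide (i ∈ Z)

theorem ind_rpow (P : Prop) {a p : ℝ} (hp : p ≠ 0) :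
    (a * ind P) ^ p = a ^ p * ind P := by
  by_cases h : P
  · rw [ind_true h, mul_one, mul_one]
  · rw [ind_false h, mul_zero, mul_zero, Real.zero_rpow hp]

/-- the sum of the products of norms over the parts of a partition into rectangles -/
theorem sum_nrm {m : ℕ} (hm : 10 ≤ m) (n b : ℕ) {f g : (Fin n → Bool) → ℝ} (hf : ∀ x, 0 ≤ f x)
    (hg : ∀ x, 0 ≤ g x) {L : Type} [Fintype L] (hL : Fintype.card L ≤ 2 ^ b)
    (q : (Fin n → Bool) → (Fin n → Bool) → Option L)
    (hq : ∀ x x' y y' l, q x y = some l → q x' y' = some l → q x y' = some l) :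
    ∑ l, nrm m n (fun x => f x * ind (∃ y, q x y = some l)) *
        nrm m n (fun y => g y * ind (∃ x, q x y = some l)) ≤
      ((2 : ℝ) ^ b) ^ (1 / ((m : ℝ) + 1)) * (nrm m n f * nrm m n g) := by
  classical
  have hm' : (10 : ℝ) ≤ m := by exact_mod_cast hm
  have hm0 : (0 : ℝ) < m := by linarith
  have hinv : 1 / (m : ℝ) ≤ 1 / 10 := by
    apply one_div_le_one_div_of_le <;> linarith
  have hinv0 : 0 < 1 / (m : ℝ) := by positivity
  have hr1 : 0 ≤ 1 - 1 / (m : ℝ) := by linarith
  have hp0 : 0 < 1 + 1 / (m : ℝ) := by linarith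
  have hp1 : 1 ≤ 1 + 1 / (m : ℝ) := by linarith
  have hnp : ∀ (k : ℕ) (u : (Fin k → Bool) → ℝ), (∀ x, 0 ≤ u x) →
      nrm m k u ^ (1 + 1 / (m : ℝ)) = ex (1 / (m : ℝ)) k fun x => u x ^ (1 + 1 / (m : ℝ)) := by
    intro k u hu
    unfold nrm
    rw [← Real.rpow_mul (ex_nonneg hinv0.le hr1 k fun x => Real.rpow_nonneg (hu x) _),
      one_div_mul_cancel hp0.ne', Real.rpow_one]
  have hnn : ∀ (k : ℕ) (u : (Fin k → Bool) → ℝ), (∀ x, 0 ≤ u x) → 0 ≤ nrm m k u := by
    intro k u hu
    exact Real.rpow_nonneg (ex_nonneg hinv0.le hr1 k fun x => Real.rpow_nonneg (hu x) _) _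
  have hfl : ∀ l x, 0 ≤ f x * ind (∃ y, q x y = some l) :=
    fun l x => mul_nonneg (hf x) (ind_nonneg _)
  have hgl : ∀ l y, 0 ≤ g y * ind (∃ x, q x y = some l) :=
    fun l x => mul_nonneg (hg x) (ind_nonneg _)
  set t : L → ℝ := fun l => nrm m n (fun x => f x * ind (∃ y, q x y = some l)) *
        nrm m n (fun y => g y * ind (∃ x, q x y = some l)) with ht
  have ht0 : ∀ l, 0 ≤ t l := fun l => mul_nonneg (hnn _ _ (hfl l)) (hnn _ _ (hgl l))
  have h1 := Real.rpow_sum_le_const_mul_sum_rpow (s := (Finset.univ : Finset L)) t hp1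
  have h2 : ∑ l, |t l| ^ (1 + 1 / (m : ℝ)) ≤
      nrm m n f ^ (1 + 1 / (m : ℝ)) * nrm m n g ^ (1 + 1 / (m : ℝ)) := by
    rw [hnp n f hf, hnp n g hg, ← ex2_prod]
    have h3 : ∀ l, |t l| ^ (1 + 1 / (m : ℝ)) = ex2 (1 / (m : ℝ)) n (fun x y =>
        (f x ^ (1 + 1 / (m : ℝ)) * ind (∃ y, q x y = some l)) *
          (g y ^ (1 + 1 / (m : ℝ)) * ind (∃ x, q x y = some l))) := by
      intro l
      rw [abs_of_nonneg (ht0 l), ht]
      simp only
      rw [Real.mul_rpow (hnn _ _ (hfl l)) (hnn _ _ (hgl l)), hnp _ _ (hfl l), hnp _ _ (hgl l),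
        ex2_prod]
      congr 1
      · congr 1
        funext x
        rw [ind_rpow _ hp0.ne']
      · congr 1
        funext x
        rw [ind_rpow _ hp0.ne']
    simp only [h3]
    rw [← ex2_sum]
    apply ex2_mono hinv0.le hr1
    intro x y
    have h4 : ∀ l, ind (∃ y, q x y = some l) * ind (∃ x, q x y = some l) ≤
        ind (q x y = some l) := by
      intro l
      by_cases h5 : q x y = some l
      · rw [ind_true h5]
        have e1 := ind_le_one (∃ y, q x y = some l)
        have e2 := ind_le_one (∃ x, q x y = some l)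
        have e3 := ind_nonneg (∃ y, q x y = some l)
        have e4 := ind_nonneg (∃ x, q x y = some l)
        nlinarith
      · rw [ind_false h5]
        by_cases h6 : (∃ y, q x y = some l) ∧ (∃ x, q x y = some l)
        · obtain ⟨⟨y', hy'⟩, ⟨x', hx'⟩⟩ := h6
          exact absurd (hq x x' y' y l hy' hx') h5
        · rw [not_and_or] at h6
          rcases h6 with h6 | h6
          · rw [ind_false h6, zero_mul]
          · rw [ind_false h6, mul_zero]
    have h5 : ∑ l, ind (q x y = some l) ≤ 1 := by
      cases hqx : q x y with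
      | none =>
        have : ∑ l : L, ind ((none : Option L) = some l) = 0 := by
          apply Finset.sum_eq_zero
          intro l _
          exact ind_false (by simp)
        rw [this]
        norm_num
      | some l0 =>
        rw [Finset.sum_eq_single l0]
        · exact ind_le_one _
        · intro l _ hl
          exact ind_false fun h => hl (Option.some.inj h).symm
        · intro h
          exact absurd (Finset.mem_univ _) h
    have hfp := Real.rpow_nonneg (hf x) (1 + 1 / (m : ℝ))
    have hgp := Real.rpow_nonneg (hg y) (1 + 1 / (m : ℝ))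
    calc ∑ l, f x ^ (1 + 1 / (m : ℝ)) * ind (∃ y, q x y = some l) *
          (g y ^ (1 + 1 / (m : ℝ)) * ind (∃ x, q x y = some l))
        = ∑ l, f x ^ (1 + 1 / (m : ℝ)) * g y ^ (1 + 1 / (m : ℝ)) *
          (ind (∃ y, q x y = some l) * ind (∃ x, q x y = some l)) := by
          apply Finset.sum_congr rfl
          intro l _
          ring
      _ ≤ ∑ l, f x ^ (1 + 1 / (m : ℝ)) * g y ^ (1 + 1 / (m : ℝ)) * ind (q x y = some l) := by
          apply Finset.sum_le_sum
          intro l _
          exact mul_le_mul_of_nonneg_left (h4 l) (mul_nonneg hfp hgp)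
      _ = f x ^ (1 + 1 / (m : ℝ)) * g y ^ (1 + 1 / (m : ℝ)) * ∑ l, ind (q x y = some l) := by
          rw [← Finset.mul_sum]
      _ ≤ f x ^ (1 + 1 / (m : ℝ)) * g y ^ (1 + 1 / (m : ℝ)) * 1 :=
          mul_le_mul_of_nonneg_left h5 (mul_nonneg hfp hgp)
      _ = _ := by rw [mul_one]
  have hcard : ((Finset.univ : Finset L).card : ℝ) ≤ (2 : ℝ) ^ b := by
    rw [Finset.card_univ]
    exact_mod_cast hL
  have h6 : ∑ l, |t l| = ∑ l, t l := Finset.sum_congr rfl fun l _ => abs_of_nonneg (ht0 l)
  rw [h6] at h1
  have hS0 : 0 ≤ ∑ l, t l := Finset.sum_nonneg fun l _ => ht0 l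
  have h7 : (∑ l, t l) ^ (1 + 1 / (m : ℝ)) ≤
      ((2 : ℝ) ^ b) ^ (1 + 1 / (m : ℝ) - 1) *
        (nrm m n f ^ (1 + 1 / (m : ℝ)) * nrm m n g ^ (1 + 1 / (m : ℝ))) := by
    refine h1.trans ?_
    apply mul_le_mul _ h2 (Finset.sum_nonneg fun l _ => Real.rpow_nonneg (abs_nonneg _) _)
      (Real.rpow_nonneg (by positivity) _)
    exact Real.rpow_le_rpow (by positivity) hcard (by linarith)
  have h8 := Real.rpow_le_rpow (Real.rpow_nonneg hS0 _) h7
    (z := 1 / (1 + 1 / (m : ℝ))) (by positivity)
  rw [← Real.rpow_mul hS0, mul_one_div_cancel hp0.ne', Real.rpow_one] at h8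
  refine h8.trans (le_of_eq ?_)
  rw [← Real.mul_rpow (hnn _ _ hf) (hnn _ _ hg),
    Real.mul_rpow (Real.rpow_nonneg (by positivity) _)
      (Real.rpow_nonneg (mul_nonneg (hnn _ _ hf) (hnn _ _ hg)) _),
    ← Real.rpow_mul (by positivity), ← Real.rpow_mul (mul_nonneg (hnn _ _ hf) (hnn _ _ hg)),
    mul_one_div_cancel hp0.ne', Real.rpow_one]
  congr 2
  field_simp
  ring

/-- **Main estimate**: an adaptive procedure which reads at most `d` cells, at most `a` of them on
the exceptional set of the cell, is right only with small probability. -/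
theorem tree_bound {m : ℕ} (hm : 10 ≤ m) (n b w s Nz : ℕ)
    (φ : Fin s → (Fin n → Bool) → (Fin n → Bool) → Fin (2 ^ w))
    {L : Type} [Fintype L] (hL : Fintype.card L ≤ 2 ^ b)
    (q : Fin s → (Fin n → Bool) → (Fin n → Bool) → Option L)
    (hq : ∀ c x x' y y' l, q c x y = some l → q c x' y' = some l → q c x y' = some l)
    (hφ : ∀ c x x' y y' l, q c x y = some l → q c x' y' = some l → φ c x y = φ c x' y')
    {ε : ℝ} (hε : 0 < ε) (hε1 : ε ≤ 1) (t : QTree s (Fin (2 ^ w)) (Finset (Fin n)))
    (d a : ℕ) {f g : (Fin n → Bool) → ℝ} (hf : ∀ x, 0 ≤ f x) (hg : ∀ x, 0 ≤ g x) :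
    ex2 (1 / (m : ℝ)) n (fun x y => f x * g y *
      ind (t.cost (fun c => φ c x y) ≤ d ∧ t.bad (fun c => φ c x y) (fun c => q c x y = none) ≤ a ∧
        conj x y = toBits (t.run (fun c => φ c x y)) ∧ Nz ≤ nz (conj x y))) ≤
      (((2 : ℝ) ^ b) ^ (1 / ((m : ℝ) + 1)) * (1 + ε)) ^ d * ((2 : ℝ) ^ w / ε) ^ a *
        ((1 - 1 / (22 * (m : ℝ) ^ 2)) ^ Nz * (nrm m n f * nrm m n g)) := by
  classical
  have hm' : (10 : ℝ) ≤ m := by exact_mod_cast hm
  have hm0 : (0 : ℝ) < m := by linarith
  have hinv : 1 / (m : ℝ) ≤ 1 / 10 := by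
    apply one_div_le_one_div_of_le <;> linarith
  have hinv0 : 0 < 1 / (m : ℝ) := by positivity
  have hr1 : 0 ≤ 1 - 1 / (m : ℝ) := by linarith
  have hg0 : 0 ≤ 1 - 1 / (22 * (m : ℝ) ^ 2) := by
    have : 1 / (22 * (m : ℝ) ^ 2) ≤ 1 := by
      rw [div_le_one (by positivity)]
      nlinarith
    linarith
  have hg1 : 1 - 1 / (22 * (m : ℝ) ^ 2) ≤ 1 := by
    have : 0 ≤ 1 / (22 * (m : ℝ) ^ 2) := by positivity
    linarith
  have hnn : ∀ (u : (Fin n → Bool) → ℝ), (∀ x, 0 ≤ u x) → 0 ≤ nrm m n u := by
    intro u hu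
    exact Real.rpow_nonneg (ex_nonneg hinv0.le hr1 n fun x => Real.rpow_nonneg (hu x) _) _
  have hK1 : 1 ≤ ((2 : ℝ) ^ b) ^ (1 / ((m : ℝ) + 1)) :=
    Real.one_le_rpow (one_le_pow₀ (by norm_num)) (by positivity)
  have hsum : ∀ (c : Fin s) {f g : (Fin n → Bool) → ℝ}, (∀ x, 0 ≤ f x) → (∀ x, 0 ≤ g x) →
      ∑ l, nrm m n (fun x => f x * ind (∃ y, q c x y = some l)) *
        nrm m n (fun y => g y * ind (∃ x, q c x y = some l)) ≤
      ((2 : ℝ) ^ b) ^ (1 / ((m : ℝ) + 1)) * (nrm m n f * nrm m n g) :=
    fun c f g hf hg => sum_nrm hm n b hf hg hL (q c) (hq c)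
  generalize ((2 : ℝ) ^ b) ^ (1 / ((m : ℝ) + 1)) = K at *
  have hK0 : 0 ≤ K := by linarith
  have hKe : 1 ≤ K * (1 + ε) := by nlinarith
  have hW1 : 1 ≤ (2 : ℝ) ^ w / ε := by
    rw [le_div_iff₀ hε, one_mul]
    exact hε1.trans (one_le_pow₀ (by norm_num))
  induction t generalizing d a f g with
  | out z =>
    simp only [QTree.run, QTree.cost, QTree.bad]
    have h1 := tensor hm n hf hg (toBits z)
    have hN := mul_nonneg (hnn f hf) (hnn g hg)
    have h2 : (1 - 1 / (22 * (m : ℝ) ^ 2)) ^ Nz * (nrm m n f * nrm m n g) ≤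
        (K * (1 + ε)) ^ d * ((2 : ℝ) ^ w / ε) ^ a * ((1 - 1 / (22 * (m : ℝ) ^ 2)) ^ Nz *
        (nrm m n f * nrm m n g)) := by
      have e1 : 1 ≤ (K * (1 + ε)) ^ d := one_le_pow₀ hKe
      have e2 : 1 ≤ ((2 : ℝ) ^ w / ε) ^ a := one_le_pow₀ hW1
      have h3 : 0 ≤ (1 - 1 / (22 * (m : ℝ) ^ 2)) ^ Nz * (nrm m n f * nrm m n g) := by positivity
      have e3 : 1 ≤ (K * (1 + ε)) ^ d * ((2 : ℝ) ^ w / ε) ^ a := by nlinarith
      nlinarith
    refine le_trans ?_ h2
    by_cases hz : Nz ≤ nz (toBits z)
    · calc _ ≤ ex2 (1 / (m : ℝ)) n (fun x y => f x * g y * ind (conj x y = toBits z)) := by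
            apply ex2_mono hinv0.le hr1
            intro x y
            exact mul_le_mul_of_nonneg_left (ind_mono fun h => h.2.2.1)
              (mul_nonneg (hf x) (hg y))
        _ ≤ _ := h1
        _ ≤ _ := by
            apply mul_le_mul_of_nonneg_right _ hN
            exact pow_le_pow_of_le_one hg0 hg1 hz
    · have h4 : ∀ x y : Fin n → Bool,
          ind (0 ≤ d ∧ 0 ≤ a ∧ conj x y = toBits z ∧ Nz ≤ nz (conj x y)) = 0 := by
        intro x y
        apply ind_false
        rintro ⟨_, _, h5, h6⟩
        rw [h5] at h6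
        exact hz h6
      simp only [h4, mul_zero, ex2_const]
      positivity
  | probe c next ih =>
    simp only [QTree.run, QTree.cost, QTree.bad]
    have hN := mul_nonneg (hnn f hf) (hnn g hg)
    cases d with
    | zero =>
      refine le_trans (ex2_mono hinv0.le hr1 n (g := fun _ _ => 0) ?_) ?_
      · intro x y
        rw [ind_false, mul_zero]
        rintro ⟨h, _⟩
        omega
      · rw [ex2_const]
        positivity
    | succ d =>
      have hfl : ∀ l x, 0 ≤ f x * ind (∃ y, q c x y = some l) :=
        fun l x => mul_nonneg (hf x) (ind_nonneg _)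
      have hgl : ∀ l y, 0 ≤ g y * ind (∃ x, q c x y = some l) :=
        fun l x => mul_nonneg (hg x) (ind_nonneg _)
      have hpos : 0 < 2 ^ w := by positivity
      -- the contents on a part
      let g' : L → Fin (2 ^ w) := fun l =>
        if h : ∃ xy : (Fin n → Bool) × (Fin n → Bool), q c xy.1 xy.2 = some l then
          φ c h.choose.1 h.choose.2 else ⟨0, hpos⟩
      have hg' : ∀ x y l, q c x y = some l → φ c x y = g' l := by
        intro x y l h
        have h0 : ∃ xy : (Fin n → Bool) × (Fin n → Bool), q c xy.1 xy.2 = some l := ⟨(x, y), h⟩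
        simp only [g', dif_pos h0]
        exact hφ c _ _ _ _ l h h0.choose_spec
      -- the event for the child `v`
      let E : Fin (2 ^ w) → ℕ → (Fin n → Bool) → (Fin n → Bool) → Prop := fun v a x y =>
        (next v).cost (fun c => φ c x y) ≤ d ∧
          (next v).bad (fun c => φ c x y) (fun c => q c x y = none) ≤ a ∧
          conj x y = toBits ((next v).run (fun c => φ c x y)) ∧ Nz ≤ nz (conj x y)
      have hS0 : ∀ x y, 0 ≤ ∑ l, (f x * ind (∃ y, q c x y = some l)) *
          (g y * ind (∃ x, q c x y = some l)) * ind (E (g' l) a x y) := fun x y =>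
        Finset.sum_nonneg fun l _ => mul_nonneg (mul_nonneg (hfl l x) (hgl l y)) (ind_nonneg _)
      have hS1 : ex2 (1 / (m : ℝ)) n (fun x y => ∑ l, (f x * ind (∃ y, q c x y = some l)) *
          (g y * ind (∃ x, q c x y = some l)) * ind (E (g' l) a x y)) ≤
          (K * (1 + ε)) ^ d * ((2 : ℝ) ^ w / ε) ^ a * ((1 - 1 / (22 * (m : ℝ) ^ 2)) ^ Nz *
            (K * (nrm m n f * nrm m n g))) := by
        rw [ex2_sum]
        calc _ ≤ ∑ l, (K * (1 + ε)) ^ d * ((2 : ℝ) ^ w / ε) ^ a *
              ((1 - 1 / (22 * (m : ℝ) ^ 2)) ^ Nz *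
              (nrm m n (fun x => f x * ind (∃ y, q c x y = some l)) *
                nrm m n (fun y => g y * ind (∃ x, q c x y = some l)))) := by
              apply Finset.sum_le_sum
              intro l _
              exact ih (g' l) d a (hfl l) (hgl l)
          _ = (K * (1 + ε)) ^ d * ((2 : ℝ) ^ w / ε) ^ a * ((1 - 1 / (22 * (m : ℝ) ^ 2)) ^ Nz *
              ∑ l, (nrm m n (fun x => f x * ind (∃ y, q c x y = some l)) *
                nrm m n (fun y => g y * ind (∃ x, q c x y = some l)))) := by
              rw [Finset.mul_sum, Finset.mul_sum]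
          _ ≤ _ := by
              have := hsum c hf hg
              have h9 : 0 ≤ (2 : ℝ) ^ w / ε := by linarith
              gcongr
      have hpt0 : ∀ (a : ℕ) (x y : Fin n → Bool) (l : L), q c x y = some l → ∀ Q : Prop,
          (Q → E (φ c x y) a x y) → f x * g y * ind Q ≤
          ∑ l, (f x * ind (∃ y, q c x y = some l)) *
          (g y * ind (∃ x, q c x y = some l)) * ind (E (g' l) a x y) := by
        intro a x y l hl Q hQ
        refine le_trans ?_ (Finset.single_le_sum (fun l _ => mul_nonneg (mul_nonneg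
          (hfl l x) (hgl l y)) (ind_nonneg _)) (Finset.mem_univ l))
        rw [ind_true (P := ∃ y', q c x y' = some l) ⟨y, hl⟩,
          ind_true (P := ∃ x', q c x' y = some l) ⟨x, hl⟩, mul_one, mul_one]
        apply mul_le_mul_of_nonneg_left (ind_mono _) (mul_nonneg (hf x) (hg y))
        rw [← hg' x y l hl]
        exact hQ
      have hKe0 : 0 ≤ K * (1 + ε) := by linarith
      have hWe0 : 0 ≤ (2 : ℝ) ^ w / ε := by linarith
      have hG0 : 0 ≤ (1 - 1 / (22 * (m : ℝ) ^ 2)) ^ Nz * (nrm m n f * nrm m n g) :=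
        mul_nonneg (pow_nonneg hg0 _) hN
      cases a with
      | zero =>
        refine le_trans (ex2_mono hinv0.le hr1 n (g := fun x y =>
          ∑ l, (f x * ind (∃ y, q c x y = some l)) *
          (g y * ind (∃ x, q c x y = some l)) * ind (E (g' l) 0 x y)) ?_) (hS1.trans ?_)
        · intro x y
          by_cases hqc : q c x y = none
          · rw [ind_false, mul_zero]
            · exact hS0 x y
            · rintro ⟨_, h, _⟩
              rw [if_pos hqc] at h
              omega
          · obtain ⟨l, hl⟩ := Option.ne_none_iff_exists'.1 hqc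
            refine hpt0 0 x y l hl _ ?_
            rintro ⟨h3, h4, h5⟩
            exact ⟨by omega, by omega, h5⟩
        · calc _ = (K * (1 + ε)) ^ d * ((2 : ℝ) ^ w / ε) ^ 0 *
              ((1 - 1 / (22 * (m : ℝ) ^ 2)) ^ Nz * (nrm m n f * nrm m n g)) * K := by ring
            _ ≤ (K * (1 + ε)) ^ d * ((2 : ℝ) ^ w / ε) ^ 0 *
              ((1 - 1 / (22 * (m : ℝ) ^ 2)) ^ Nz * (nrm m n f * nrm m n g)) * (K * (1 + ε)) := by
                apply mul_le_mul_of_nonneg_left (by nlinarith)
                positivity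
            _ = _ := by ring
      | succ a =>
        have hS2 : ex2 (1 / (m : ℝ)) n (fun x y => ∑ v, f x * g y * ind (E v a x y)) ≤
            (K * (1 + ε)) ^ d * ((2 : ℝ) ^ w / ε) ^ (a + 1) *
              ((1 - 1 / (22 * (m : ℝ) ^ 2)) ^ Nz * (nrm m n f * nrm m n g)) * ε := by
          rw [ex2_sum]
          calc _ ≤ ∑ _v : Fin (2 ^ w), (K * (1 + ε)) ^ d * ((2 : ℝ) ^ w / ε) ^ a *
                ((1 - 1 / (22 * (m : ℝ) ^ 2)) ^ Nz * (nrm m n f * nrm m n g)) :=
                Finset.sum_le_sum fun v _ => ih v d a hf hg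
            _ = _ := by
                rw [Finset.sum_const, Finset.card_univ, Fintype.card_fin, nsmul_eq_mul]
                push_cast
                have h10 : (2 : ℝ) ^ w / ε * ε = 2 ^ w := div_mul_cancel₀ _ hε.ne'
                calc (2 : ℝ) ^ w * ((K * (1 + ε)) ^ d * ((2 : ℝ) ^ w / ε) ^ a *
                    ((1 - 1 / (22 * (m : ℝ) ^ 2)) ^ Nz * (nrm m n f * nrm m n g)))
                    = ((2 : ℝ) ^ w / ε * ε) * ((K * (1 + ε)) ^ d * ((2 : ℝ) ^ w / ε) ^ a *
                    ((1 - 1 / (22 * (m : ℝ) ^ 2)) ^ Nz * (nrm m n f * nrm m n g))) := by rw [h10]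
                  _ = _ := by ring
        refine le_trans (ex2_mono hinv0.le hr1 n (g := fun x y =>
          (∑ l, (f x * ind (∃ y, q c x y = some l)) *
          (g y * ind (∃ x, q c x y = some l)) * ind (E (g' l) (a + 1) x y)) +
          ∑ v, f x * g y * ind (E v a x y)) ?_) ?_
        · intro x y
          have hV0 : 0 ≤ ∑ v, f x * g y * ind (E v a x y) := Finset.sum_nonneg fun v _ =>
            mul_nonneg (mul_nonneg (hf x) (hg y)) (ind_nonneg _)
          by_cases hqc : q c x y = none
          · have hle : f x * g y * ind (E (φ c x y) a x y) ≤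
                ∑ v, f x * g y * ind (E v a x y) :=
              Finset.single_le_sum (f := fun v => f x * g y * ind (E v a x y))
                (fun v _ => mul_nonneg (mul_nonneg (hf x) (hg y)) (ind_nonneg _))
                (Finset.mem_univ (φ c x y))
            refine le_trans ?_ (hle.trans (le_add_of_nonneg_left (hS0 x y)))
            apply mul_le_mul_of_nonneg_left (ind_mono _) (mul_nonneg (hf x) (hg y))
            rintro ⟨h3, h4, h5⟩
            rw [if_pos hqc] at h4
            exact ⟨by omega, by omega, h5⟩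
          · obtain ⟨l, hl⟩ := Option.ne_none_iff_exists'.1 hqc
            refine (hpt0 (a + 1) x y l hl _ ?_).trans (le_add_of_nonneg_right hV0)
            rintro ⟨h3, h4, h5⟩
            exact ⟨by omega, by omega, h5⟩
        · rw [ex2_add]
          have hP : 0 ≤ (K * (1 + ε)) ^ d * ((2 : ℝ) ^ w / ε) ^ (a + 1) *
              ((1 - 1 / (22 * (m : ℝ) ^ 2)) ^ Nz * (nrm m n f * nrm m n g)) := by positivity
          refine (add_le_add hS1 hS2).trans ?_
          calc _ = (K * (1 + ε)) ^ d * ((2 : ℝ) ^ w / ε) ^ (a + 1) *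
              ((1 - 1 / (22 * (m : ℝ) ^ 2)) ^ Nz * (nrm m n f * nrm m n g)) * (K + ε) := by ring
            _ ≤ (K * (1 + ε)) ^ d * ((2 : ℝ) ^ w / ε) ^ (a + 1) *
              ((1 - 1 / (22 * (m : ℝ) ^ 2)) ^ Nz * (nrm m n f * nrm m n g)) *
                (K * (1 + ε)) := by
                apply mul_le_mul_of_nonneg_left _ hP
                nlinarith
            _ = _ := by ring

end Pool.Agent.W959.Ent
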