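import Pool.Agent.W959.TwoPoint

/-!
# Expectations over biased bits and the tensorised inequality
-/

set_option autoImplicit false

namespace Pool.Agent.W959

/-- expectation over `n` independent bits which are `true` with probability `r` -/
noncomputable def ex (r : ℝ) : (n : ℕ) → ((Fin n → Bool) → ℝ) → ℝ
  | 0, f => f Fin.elim0
  | n + 1, f => (1 - r) * ex r n (fun x => f (Fin.cons false x)) +
      r * ex r n (fun x => f (Fin.cons true x))

variable {r : ℝ}

theorem ex_add (n : ℕ) (f g : (Fin n → Bool) → ℝ) :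
    ex r n (fun x => f x + g x) = ex r n f + ex r n g := by
  induction n with
  | zero => rfl
  | succ n ih => simp only [ex]; rw [ih, ih]; ring

theorem ex_mul (n : ℕ) (c : ℝ) (f : (Fin n → Bool) → ℝ) :
    ex r n (fun x => c * f x) = c * ex r n f := by
  induction n with
  | zero => rfl
  | succ n ih => simp only [ex]; rw [ih, ih]; ring

theorem ex_const (n : ℕ) (c : ℝ) : ex r n (fun _ => c) = c := by
  induction n with
  | zero => rfl
  | succ n ih => simp only [ex]; rw [ih]; ring

theorem ex_mono (h0 : 0 ≤ r) (h1 : 0 ≤ 1 - r) (n : ℕ) {f g : (Fin n → Bool) → ℝ}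
    (h : ∀ x, f x ≤ g x) : ex r n f ≤ ex r n g := by
  induction n with
  | zero => exact h _
  | succ n ih =>
    simp only [ex]
    have e1 := ih (f := fun x => f (Fin.cons false x)) (g := fun x => g (Fin.cons false x))
      fun x => h _
    have e2 := ih (f := fun x => f (Fin.cons true x)) (g := fun x => g (Fin.cons true x))
      fun x => h _
    gcongr

theorem ex_nonneg (h0 : 0 ≤ r) (h1 : 0 ≤ 1 - r) (n : ℕ) {f : (Fin n → Bool) → ℝ}
    (h : ∀ x, 0 ≤ f x) : 0 ≤ ex r n f := by
  have := ex_mono h0 h1 n (f := fun _ => 0) (g := f) h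
  rwa [ex_const] at this

theorem ex_sum {ι : Type} (s : Finset ι) (n : ℕ) (f : ι → (Fin n → Bool) → ℝ) :
    ex r n (fun x => ∑ i ∈ s, f i x) = ∑ i ∈ s, ex r n (f i) := by
  classical
  induction s using Finset.induction_on with
  | empty => simp [ex_const]
  | insert a s ha ih =>
    rw [Finset.sum_insert ha, ← ih, ← ex_add]
    congr 1
    funext x
    rw [Finset.sum_insert ha]

/-- expectation over two independent vectors -/
noncomputable def ex2 (r : ℝ) (n : ℕ) (h : (Fin n → Bool) → (Fin n → Bool) → ℝ) : ℝ :=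
  ex r n (fun x => ex r n (fun y => h x y))

theorem ex2_succ (n : ℕ) (h : (Fin (n + 1) → Bool) → (Fin (n + 1) → Bool) → ℝ) :
    ex2 r (n + 1) h =
      (1 - r) * ((1 - r) * ex2 r n (fun x y => h (Fin.cons false x) (Fin.cons false y)) +
        r * ex2 r n (fun x y => h (Fin.cons false x) (Fin.cons true y))) +
      r * ((1 - r) * ex2 r n (fun x y => h (Fin.cons true x) (Fin.cons false y)) +
        r * ex2 r n (fun x y => h (Fin.cons true x) (Fin.cons true y))) := by
  simp only [ex2, ex]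
  rw [ex_add, ex_add, ex_mul, ex_mul, ex_mul, ex_mul]

theorem ex2_mono (h0 : 0 ≤ r) (h1 : 0 ≤ 1 - r) (n : ℕ) {f g : (Fin n → Bool) → (Fin n → Bool) → ℝ}
    (h : ∀ x y, f x y ≤ g x y) : ex2 r n f ≤ ex2 r n g :=
  ex_mono h0 h1 n fun x => ex_mono h0 h1 n fun y => h x y

theorem ex2_nonneg (h0 : 0 ≤ r) (h1 : 0 ≤ 1 - r) (n : ℕ) {f : (Fin n → Bool) → (Fin n → Bool) → ℝ}
    (h : ∀ x y, 0 ≤ f x y) : 0 ≤ ex2 r n f :=
  ex_nonneg h0 h1 n fun x => ex_nonneg h0 h1 n fun y => h x y

theorem ex2_add (n : ℕ) (f g : (Fin n → Bool) → (Fin n → Bool) → ℝ) :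
    ex2 r n (fun x y => f x y + g x y) = ex2 r n f + ex2 r n g := by
  simp only [ex2]
  rw [← ex_add]
  congr 1
  funext x
  rw [ex_add]

theorem ex2_mul (n : ℕ) (c : ℝ) (f : (Fin n → Bool) → (Fin n → Bool) → ℝ) :
    ex2 r n (fun x y => c * f x y) = c * ex2 r n f := by
  simp only [ex2]
  rw [← ex_mul]
  congr 1
  funext x
  rw [ex_mul]

theorem ex2_const (n : ℕ) (c : ℝ) : ex2 r n (fun _ _ => c) = c := by
  simp only [ex2, ex_const]

theorem ex2_sum {ι : Type} (s : Finset ι) (n : ℕ)
    (f : ι → (Fin n → Bool) → (Fin n → Bool) → ℝ) :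
    ex2 r n (fun x y => ∑ i ∈ s, f i x y) = ∑ i ∈ s, ex2 r n (f i) := by
  simp only [ex2]
  rw [← ex_sum]
  congr 1
  funext x
  rw [ex_sum]

theorem ex2_prod (n : ℕ) (f g : (Fin n → Bool) → ℝ) :
    ex2 r n (fun x y => f x * g y) = ex r n f * ex r n g := by
  simp only [ex2]
  simp only [ex_mul]
  have : (fun x => f x * ex r n g) = fun x => ex r n g * f x := by
    funext x; ring
  rw [this, ex_mul]
  ring

/-- bitwise conjunction -/
def conj {n : ℕ} (x y : Fin n → Bool) : Fin n → Bool := fun i => x i && y i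

/-- number of zeros -/
def nz {n : ℕ} (z : Fin n → Bool) : ℕ := (Finset.univ.filter fun i => z i = false).card

theorem nz_cons {n : ℕ} (a : Bool) (z : Fin n → Bool) :
    nz (Fin.cons a z : Fin (n + 1) → Bool) = (if a = false then 1 else 0) + nz z := by
  simp only [nz]
  rw [Fin.card_filter_univ_succ']
  simp [Fin.cons_zero, Fin.cons_succ]

theorem conj_cons {n : ℕ} (a b : Bool) (x y : Fin n → Bool) :
    conj (Fin.cons a x : Fin (n + 1) → Bool) (Fin.cons b y) = Fin.cons (a && b) (conj x y) := by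
  funext i
  refine Fin.cases ?_ (fun j => ?_) i
  · simp [conj]
  · simp [conj]

/-- indicator of a proposition -/
noncomputable def ind (P : Prop) : ℝ := open Classical in if P then 1 else 0

theorem ind_nonneg (P : Prop) : 0 ≤ ind P := by
  unfold ind; split <;> norm_num

theorem ind_le_one (P : Prop) : ind P ≤ 1 := by
  unfold ind; split <;> norm_num

theorem ind_true {P : Prop} (h : P) : ind P = 1 := by simp [ind, h]

theorem ind_false {P : Prop} (h : ¬ P) : ind P = 0 := by simp [ind, h]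

theorem ind_mono {P Q : Prop} (h : P → Q) : ind P ≤ ind Q := by
  by_cases hP : P
  · rw [ind_true hP, ind_true (h hP)]
  · rw [ind_false hP]; exact ind_nonneg _

/-- the norm -/
noncomputable def nrm (m : ℕ) (n : ℕ) (f : (Fin n → Bool) → ℝ) : ℝ :=
  (ex (1 / (m : ℝ)) n fun x => f x ^ (1 + 1 / (m : ℝ))) ^ (1 / (1 + 1 / (m : ℝ)))

/-- **Tensorised inequality.** -/
theorem tensor {m : ℕ} (hm : 10 ≤ m) (n : ℕ) {f g : (Fin n → Bool) → ℝ} (hf : ∀ x, 0 ≤ f x)
    (hg : ∀ x, 0 ≤ g x) (z : Fin n → Bool) :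
    ex2 (1 / (m : ℝ)) n (fun x y => f x * g y * ind (conj x y = z)) ≤
      (1 - 1 / (22 * (m : ℝ) ^ 2)) ^ nz z * (nrm m n f * nrm m n g) := by
  have hm' : (10 : ℝ) ≤ m := by exact_mod_cast hm
  have hm0 : (0 : ℝ) < m := by linarith
  have hinv : 1 / (m : ℝ) ≤ 1 / 10 := by
    apply one_div_le_one_div_of_le <;> linarith
  have hinv0 : 0 < 1 / (m : ℝ) := by positivity
  have hr1 : 0 ≤ 1 - 1 / (m : ℝ) := by linarith
  have hp0 : 0 < 1 + 1 / (m : ℝ) := by linarith
  have hg0 : 0 ≤ 1 - 1 / (22 * (m : ℝ) ^ 2) := by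
    have : 1 / (22 * (m : ℝ) ^ 2) ≤ 1 := by
      rw [div_le_one (by positivity)]
      nlinarith
    linarith
  have hg1 : 1 - 1 / (22 * (m : ℝ) ^ 2) ≤ 1 := by
    have : 0 ≤ 1 / (22 * (m : ℝ) ^ 2) := by positivity
    linarith
  -- power of the norm
  have hnp : ∀ (k : ℕ) (u : (Fin k → Bool) → ℝ), (∀ x, 0 ≤ u x) →
      nrm m k u ^ (1 + 1 / (m : ℝ)) = ex (1 / (m : ℝ)) k fun x => u x ^ (1 + 1 / (m : ℝ)) := by
    intro k u hu
    unfold nrm
    rw [← Real.rpow_mul (ex_nonneg hinv0.le hr1 k fun x => Real.rpow_nonneg (hu x) _),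
      one_div_mul_cancel hp0.ne', Real.rpow_one]
  have hnn : ∀ (k : ℕ) (u : (Fin k → Bool) → ℝ), (∀ x, 0 ≤ u x) → 0 ≤ nrm m k u := by
    intro k u hu
    exact Real.rpow_nonneg (ex_nonneg hinv0.le hr1 k fun x => Real.rpow_nonneg (hu x) _) _
  induction n with
  | zero =>
    have h1 : ex2 (1 / (m : ℝ)) 0 (fun x y => f x * g y * ind (conj x y = z)) ≤
        f Fin.elim0 * g Fin.elim0 := by
      simp only [ex2, ex]
      have := mul_nonneg (hf Fin.elim0) (hg Fin.elim0)
      nlinarith [ind_le_one (conj (Fin.elim0 : Fin 0 → Bool) Fin.elim0 = z)]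
    have h2 : nz z = 0 := by simp [nz]
    have h3 : ∀ u : (Fin 0 → Bool) → ℝ, (∀ x, 0 ≤ u x) → nrm m 0 u = u Fin.elim0 := by
      intro u hu
      simp only [nrm, ex]
      rw [← Real.rpow_mul (hu _), mul_one_div_cancel hp0.ne', Real.rpow_one]
    rw [h2, pow_zero, one_mul, h3 f hf, h3 g hg]
    exact h1
  | succ n ih =>
    obtain ⟨a, z', rfl⟩ : ∃ (a : Bool) (z' : Fin n → Bool), z = Fin.cons a z' :=
      ⟨z 0, Fin.tail z, (Fin.cons_self_tail z).symm⟩
    rw [ex2_succ]
    simp only [conj_cons]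
    -- the four parts
    have hpart : ∀ b c : Bool, ex2 (1 / (m : ℝ)) n (fun x y =>
        f (Fin.cons b x) * g (Fin.cons c y) *
          ind ((Fin.cons (b && c) (conj x y) : Fin (n + 1) → Bool) = Fin.cons a z')) ≤
        (if (b && c) = a then 1 else 0) * ((1 - 1 / (22 * (m : ℝ) ^ 2)) ^ nz z' *
          (nrm m n (fun x => f (Fin.cons b x)) * nrm m n (fun x => g (Fin.cons c x)))) := by
      intro b c
      by_cases hbc : (b && c) = a
      · rw [if_pos hbc, one_mul, hbc]
        have := ih (f := fun x => f (Fin.cons b x)) (g := fun x => g (Fin.cons c x))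
          (fun x => hf _) (fun x => hg _) z'
        refine le_trans (le_of_eq ?_) this
        congr 1
        funext x y
        congr 2
        exact propext ⟨fun h => (Fin.cons_inj.1 h).2, fun h => by rw [h]⟩
      · rw [if_neg hbc, zero_mul]
        have h4 : ∀ x y : Fin n → Bool, ind ((Fin.cons (b && c) (conj x y) : Fin (n + 1) → Bool) =
            Fin.cons a z') = 0 := by
          intro x y
          apply ind_false
          intro h
          apply hbc
          have := congrFun h 0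
          simpa using this
        simp only [h4, mul_zero, ex2_const]
        exact le_rfl
    have p00 := hpart false false
    have p01 := hpart false true
    have p10 := hpart true false
    have p11 := hpart true true
    have hF0 := hnn n (fun x => f (Fin.cons false x)) fun x => hf _
    have hF1 := hnn n (fun x => f (Fin.cons true x)) fun x => hf _
    have hG0 := hnn n (fun x => g (Fin.cons false x)) fun x => hg _
    have hG1 := hnn n (fun x => g (Fin.cons true x)) fun x => hg _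
    have hfn : nrm m (n + 1) f = ((1 - 1 / (m : ℝ)) * nrm m n (fun x => f (Fin.cons false x)) ^
        (1 + 1 / (m : ℝ)) + 1 / (m : ℝ) * nrm m n (fun x => f (Fin.cons true x)) ^
        (1 + 1 / (m : ℝ))) ^ (1 / (1 + 1 / (m : ℝ))) := by
      rw [hnp n _ fun x => hf _, hnp n _ fun x => hf _]
      simp only [nrm, ex]
    have hgn : nrm m (n + 1) g = ((1 - 1 / (m : ℝ)) * nrm m n (fun x => g (Fin.cons false x)) ^
        (1 + 1 / (m : ℝ)) + 1 / (m : ℝ) * nrm m n (fun x => g (Fin.cons true x)) ^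
        (1 + 1 / (m : ℝ))) ^ (1 / (1 + 1 / (m : ℝ))) := by
      rw [hnp n _ fun x => hg _, hnp n _ fun x => hg _]
      simp only [nrm, ex]
    have tp := two_point hm hF0 hF1 hG0 hG1
    rw [← hfn, ← hgn] at tp
    have hp1 : ∀ {A B : ℝ}, 0 ≤ A → 0 ≤ B → B ≤ ((1 - 1 / (m : ℝ)) * A ^ (1 + 1 / (m : ℝ)) +
        1 / (m : ℝ) * B ^ (1 + 1 / (m : ℝ))) ^ (1 / (1 + 1 / (m : ℝ))) * (m : ℝ) := by
      intro A B hA hB
      have hpp : 1 / (1 + 1 / (m : ℝ)) ≤ 1 := by
        rw [div_le_one hp0]; linarith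
      have e1 : (1 / (m : ℝ) * B ^ (1 + 1 / (m : ℝ))) ^ (1 / (1 + 1 / (m : ℝ))) ≤
          ((1 - 1 / (m : ℝ)) * A ^ (1 + 1 / (m : ℝ)) +
        1 / (m : ℝ) * B ^ (1 + 1 / (m : ℝ))) ^ (1 / (1 + 1 / (m : ℝ))) := by
        have := Real.rpow_nonneg hA (1 + 1 / (m : ℝ))
        have := Real.rpow_nonneg hB (1 + 1 / (m : ℝ))
        apply Real.rpow_le_rpow (by positivity) _ (by positivity)
        have : 0 ≤ (1 - 1 / (m : ℝ)) * A ^ (1 + 1 / (m : ℝ)) := by positivity
        linarith
      have e2 : (1 / (m : ℝ) * B ^ (1 + 1 / (m : ℝ))) ^ (1 / (1 + 1 / (m : ℝ))) =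
          (1 / (m : ℝ)) ^ (1 / (1 + 1 / (m : ℝ))) * B := by
        rw [Real.mul_rpow hinv0.le (Real.rpow_nonneg hB _), ← Real.rpow_mul hB,
          mul_one_div_cancel hp0.ne', Real.rpow_one]
      have e3 : 1 / (m : ℝ) ≤ (1 / (m : ℝ)) ^ (1 / (1 + 1 / (m : ℝ))) := by
        calc 1 / (m : ℝ) = (1 / (m : ℝ)) ^ (1 : ℝ) := (Real.rpow_one _).symm
          _ ≤ _ := Real.rpow_le_rpow_of_exponent_ge hinv0 (by linarith) hpp
      have e4 : 1 / (m : ℝ) * B ≤ ((1 - 1 / (m : ℝ)) * A ^ (1 + 1 / (m : ℝ)) +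
        1 / (m : ℝ) * B ^ (1 + 1 / (m : ℝ))) ^ (1 / (1 + 1 / (m : ℝ))) := by
        refine le_trans ?_ e1
        rw [e2]
        exact mul_le_mul_of_nonneg_right e3 hB
      calc B = 1 / (m : ℝ) * B * m := by field_simp
        _ ≤ _ := mul_le_mul_of_nonneg_right e4 hm0.le
    have q1 := hp1 hF0 hF1
    have q2 := hp1 hG0 hG1
    rw [← hfn] at q1
    rw [← hgn] at q2
    have hN := hnn (n + 1) f hf
    have hM := hnn (n + 1) g hg
    rw [nz_cons]
    generalize (1 - 1 / (22 * (m : ℝ) ^ 2)) = γ at *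
    have hγn : 0 ≤ γ ^ nz z' := by positivity
    cases a with
    | false =>
      simp only [Bool.and_self, Bool.and_true, Bool.and_false, if_true, one_mul,
        Bool.true_eq_false, if_false, zero_mul] at p00 p01 p10 p11
      simp only [Bool.and_self, Bool.and_true, Bool.and_false]
      rw [if_pos trivial, pow_add, pow_one]
      generalize ex2 (1 / (m : ℝ)) n _ = E00 at *
      generalize ex2 (1 / (m : ℝ)) n _ = E01 at *
      generalize ex2 (1 / (m : ℝ)) n _ = E10 at *
      generalize ex2 (1 / (m : ℝ)) n _ = E11 at *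
      generalize nrm m n (fun x => f (Fin.cons false x)) = F0 at *
      generalize nrm m n (fun x => f (Fin.cons true x)) = F1 at *
      generalize nrm m n (fun x => g (Fin.cons false x)) = G0 at *
      generalize nrm m n (fun x => g (Fin.cons true x)) = G1 at *
      generalize 1 / (m : ℝ) = r at *
      calc (1 - r) * ((1 - r) * E00 + r * E01) + r * ((1 - r) * E10 + r * E11)
          ≤ (1 - r) * ((1 - r) * (γ ^ nz z' * (F0 * G0)) + r * (γ ^ nz z' * (F0 * G1))) +
            r * ((1 - r) * (γ ^ nz z' * (F1 * G0)) + r * 0) := by gcongr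
        _ = γ ^ nz z' * ((1 - r) * ((1 - r) * (F0 * G0) + r * (F0 * G1)) +
            r * ((1 - r) * (F1 * G0))) := by ring
        _ ≤ γ ^ nz z' * (γ * (nrm m (n + 1) f * nrm m (n + 1) g)) := by gcongr
        _ = _ := by ring
    | true =>
      simp only [Bool.and_self, Bool.and_true, Bool.and_false, if_true, one_mul,
        Bool.false_eq_true, if_false, zero_mul] at p00 p01 p10 p11
      simp only [Bool.and_self, Bool.and_true, Bool.and_false]
      rw [if_neg (by simp), zero_add]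
      generalize ex2 (1 / (m : ℝ)) n _ = E00 at *
      generalize ex2 (1 / (m : ℝ)) n _ = E01 at *
      generalize ex2 (1 / (m : ℝ)) n _ = E10 at *
      generalize ex2 (1 / (m : ℝ)) n _ = E11 at *
      generalize nrm m n (fun x => f (Fin.cons false x)) = F0 at *
      generalize nrm m n (fun x => f (Fin.cons true x)) = F1 at *
      generalize nrm m n (fun x => g (Fin.cons false x)) = G0 at *
      generalize nrm m n (fun x => g (Fin.cons true x)) = G1 at *
      have hrm : 1 / (m : ℝ) * m = 1 := by field_simp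
      generalize 1 / (m : ℝ) = r at *
      calc (1 - r) * ((1 - r) * E00 + r * E01) + r * ((1 - r) * E10 + r * E11)
          ≤ (1 - r) * ((1 - r) * 0 + r * 0) +
            r * ((1 - r) * 0 + r * (γ ^ nz z' * (F1 * G1))) := by gcongr
        _ = γ ^ nz z' * ((r * F1) * (r * G1)) := by ring
        _ ≤ γ ^ nz z' * ((r * (nrm m (n + 1) f * m)) * (r * (nrm m (n + 1) g * m))) := by gcongr
        _ = γ ^ nz z' * ((r * m) * (r * m) * (nrm m (n + 1) f * nrm m (n + 1) g)) := by ring
        _ = _ := by rw [hrm, one_mul, one_mul]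

end Pool.Agent.W959
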