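import Mathlib

/-!
# A two-point inequality and its tensor power
-/

set_option autoImplicit false

namespace Pool.Agent.W959

open Real

/-- `-x log x ≤ 1 / 2` -/
theorem neg_mul_log_le {x : ℝ} (hx : 0 < x) : -(x * Real.log x) ≤ 1 / 2 := by
  have h1 : 0 < Real.sqrt x := Real.sqrt_pos.2 hx
  have h2 : Real.log (1 / Real.sqrt x) ≤ 1 / Real.sqrt x - 1 :=
    Real.log_le_sub_one_of_pos (by positivity)
  have h3 : Real.log (1 / Real.sqrt x) = -(Real.log x / 2) := by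
    rw [Real.log_div one_ne_zero h1.ne', Real.log_one, Real.log_sqrt hx.le]
    ring
  rw [h3] at h2
  have h4 : Real.sqrt x * Real.sqrt x = x := Real.mul_self_sqrt hx.le
  have h5 : x * (1 / Real.sqrt x) = Real.sqrt x := by
    field_simp
    nlinarith
  have h6 : x * (-(Real.log x / 2)) ≤ x * (1 / Real.sqrt x - 1) :=
    mul_le_mul_of_nonneg_left h2 hx.le
  rw [mul_sub, h5, mul_one] at h6
  nlinarith [sq_nonneg (Real.sqrt x - 1 / 2)]

/-- `x - x ^ (1 + 1/m) ≤ 1 / (2 m)` -/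
theorem sub_rpow_le {x m : ℝ} (hx : 0 ≤ x) (hm : 0 < m) :
    x - 1 / (2 * m) ≤ x ^ (1 + 1 / m) := by
  rcases hx.eq_or_lt with h | h
  · subst h
    have : (0 : ℝ) ^ (1 + 1 / m) = 0 := Real.zero_rpow (by positivity)
    rw [this]
    have : (0 : ℝ) < 1 / (2 * m) := by positivity
    linarith
  · rw [Real.rpow_add h, Real.rpow_one]
    have h1 : 1 + Real.log x / m ≤ x ^ (1 / m) := by
      rw [Real.rpow_def_of_pos h]
      have := Real.add_one_le_exp (Real.log x * (1 / m))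
      calc 1 + Real.log x / m = Real.log x * (1 / m) + 1 := by ring
        _ ≤ _ := this
    have h2 := mul_le_mul_of_nonneg_left h1 h.le
    have h3 := neg_mul_log_le h
    have h4 : -(x * Real.log x) / m ≤ 1 / 2 / m := by gcongr
    have h5 : x * (1 + Real.log x / m) = x - (-(x * Real.log x) / m) := by ring
    rw [h5] at h2
    have h6 : (1 : ℝ) / 2 / m = 1 / (2 * m) := by ring
    linarith

theorem key_pow {m : ℕ} {r β : ℝ} (hr0 : 0 < r) (hr1 : r ≤ 1 / 10) (hmr : (m : ℝ) * r = 1)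
    (hb1 : 9 / 10 ≤ β) (hb2 : β ≤ 1 - (9 / 10) * r) :
    β ^ (m + 1) ≤ (1 - r / 11) * (β - r ^ 2 / 2) ^ m := by
  have hβ0 : 0 < β := by linarith
  have e1 : β - r ^ 2 / 2 = β * (1 + -(r ^ 2 / (2 * β))) := by
    field_simp
    ring
  have e2 : 1 + (m : ℝ) * (-(r ^ 2 / (2 * β))) ≤ (1 + -(r ^ 2 / (2 * β))) ^ m := by
    apply one_add_mul_le_pow
    have h1 : r ^ 2 ≤ 1 := by
      have : r ^ 2 ≤ (1 / 10) ^ 2 := pow_le_pow_left₀ hr0.le hr1 2
      linarith
    have : r ^ 2 / (2 * β) ≤ 1 := by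
      rw [div_le_one (by positivity)]
      linarith
    linarith
  have e3 : (m : ℝ) * (-(r ^ 2 / (2 * β))) = -(r / (2 * β)) := by
    have h9 : (m : ℝ) * (-(r ^ 2 / (2 * β))) = -(((m : ℝ) * r) * r / (2 * β)) := by ring
    rw [h9, hmr, one_mul]
  rw [e3] at e2
  have e4 : r / (2 * β) ≤ r * (5 / 9) := by
    rw [div_le_iff₀ (by positivity)]
    have : r * (9 / 10) ≤ r * β := mul_le_mul_of_nonneg_left hb1 hr0.le
    linarith
  have hc0 : 0 ≤ 1 - r / 11 := by linarith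
  have e5 : β ≤ (1 - r / 11) * (1 + -(r / (2 * β))) := by
    have e7 : (1 - r / 11) * (1 - r * (5 / 9)) ≤ (1 - r / 11) * (1 + -(r / (2 * β))) := by
      apply mul_le_mul_of_nonneg_left _ hc0
      linarith
    have e8 : 1 - (9 / 10) * r ≤ (1 - r / 11) * (1 - r * (5 / 9)) := by
      have : (1 - r / 11) * (1 - r * (5 / 9)) = 1 - r * (64 / 99) + r * r * (5 / 99) := by ring
      have h10 : 0 ≤ r * r := mul_self_nonneg r
      linarith
    linarith
  rw [e1, mul_pow]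
  calc β ^ (m + 1) = β ^ m * β := by ring
    _ ≤ β ^ m * ((1 - r / 11) * (1 + -(r / (2 * β)))) := by gcongr
    _ ≤ β ^ m * ((1 - r / 11) * (1 + -(r ^ 2 / (2 * β))) ^ m) := by gcongr
    _ = _ := by ring

/-- The scalar inequality behind the two-point inequality. -/
theorem scal {m : ℕ} (hm : 10 ≤ m) {f0 f1 : ℝ} (h0 : 0 ≤ f0) (h1 : 0 ≤ f1) :
    (1 - 1 / (m : ℝ)) * ((1 - 1 / (m : ℝ)) * f0 + 1 / (m : ℝ) * f1) ^ (m + 1) +
      1 / (m : ℝ) * ((1 - 1 / (m : ℝ)) * f0) ^ (m + 1) ≤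
    (1 - 1 / (11 * (m : ℝ))) *
      ((1 - 1 / (m : ℝ)) * f0 ^ (1 + 1 / (m : ℝ)) + 1 / (m : ℝ) * f1 ^ (1 + 1 / (m : ℝ))) ^ m := by
  have hm' : (10 : ℝ) ≤ m := by exact_mod_cast hm
  have hm0 : (0 : ℝ) < m := by linarith
  have hinv : 1 / (m : ℝ) ≤ 1 / 10 := by
    apply one_div_le_one_div_of_le <;> linarith
  have hinv0 : 0 < 1 / (m : ℝ) := by positivity
  set r : ℝ := 1 / (m : ℝ) with hr
  have hr1 : 0 ≤ 1 - r := by linarith
  set M : ℝ := (1 - r) * f0 + r * f1 with hM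
  set A : ℝ := (1 - r) * f0 ^ (1 + r) + r * f1 ^ (1 + r) with hA
  have hM0 : 0 ≤ M := by positivity
  have hA0 : 0 ≤ A := by
    have := Real.rpow_nonneg h0 (1 + r)
    have := Real.rpow_nonneg h1 (1 + r)
    positivity
  have hMA : M ^ (m + 1) ≤ A ^ m := by
    have hj : M ^ (1 + r) ≤ A := by
      have := (convexOn_rpow (p := 1 + r) (by linarith)).2 (Set.mem_Ici.2 h0) (Set.mem_Ici.2 h1)
        hr1 hinv0.le (by ring)
      simpa [smul_eq_mul] using this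
    have h2 : M ^ (m + 1) = (M ^ (1 + r)) ^ m := by
      rw [← Real.rpow_natCast (M ^ (1 + r)) m, ← Real.rpow_mul hM0, ← Real.rpow_natCast M (m + 1)]
      congr 1
      push_cast
      rw [hr]
      field_simp
    rw [h2]
    exact pow_le_pow_left₀ (Real.rpow_nonneg hM0 _) hj m
  have hc : 1 / (11 * (m : ℝ)) = r / 11 := by rw [hr]; field_simp
  rw [hc]
  have hc0 : 0 ≤ 1 - r / 11 := by linarith
  by_cases hcase : ((1 - r) * f0) ^ (m + 1) ≤ (10 / 11) * M ^ (m + 1)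
  · calc (1 - r) * M ^ (m + 1) + r * ((1 - r) * f0) ^ (m + 1)
        ≤ (1 - r) * M ^ (m + 1) + r * ((10 / 11) * M ^ (m + 1)) := by gcongr
      _ = (1 - r / 11) * M ^ (m + 1) := by ring
      _ ≤ (1 - r / 11) * A ^ m := by gcongr
  · push Not at hcase
    have hf0 : 0 < f0 := by
      rcases h0.eq_or_lt with h | h
      · exfalso
        rw [← h, mul_zero, zero_pow (by omega)] at hcase
        have : 0 ≤ M ^ (m + 1) := by positivity
        linarith
      · exact h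
    set τ : ℝ := f1 / f0 with hτ
    have hτ0 : 0 ≤ τ := by positivity
    have hf1 : f1 = f0 * τ := by rw [hτ]; field_simp
    have hM2 : M = f0 * (1 - (1 - τ) * r) := by rw [hM, hf1]; ring
    set β : ℝ := 1 - (1 - τ) * r with hβ
    have hβ1 : 1 - r ≤ β := by rw [hβ]; nlinarith
    have hβ0 : 0 < β := by linarith
    -- `τ` is small
    have hτ1 : τ < 1 / 10 := by
      have e1 : M = ((1 - r) * f0) * (1 + r * τ / (1 - r)) := by
        rw [hM2, hβ]
        have : (1 - r) ≠ 0 := by linarith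
        field_simp
        ring
      have e2 : 1 + ((m + 1 : ℕ) : ℝ) * (r * τ / (1 - r)) ≤ (1 + r * τ / (1 - r)) ^ (m + 1) :=
        one_add_mul_le_pow (by
          have : 0 ≤ r * τ / (1 - r) := by positivity
          linarith) _
      have e3 : 0 < ((1 - r) * f0) ^ (m + 1) := by
        have : 0 < (1 - r) := by linarith
        positivity
      rw [e1, mul_pow] at hcase
      have e4 : (1 + r * τ / (1 - r)) ^ (m + 1) < 11 / 10 := by
        by_contra hcon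
        push Not at hcon
        nlinarith
      have e5 : τ ≤ ((m + 1 : ℕ) : ℝ) * (r * τ / (1 - r)) := by
        have h7 : (0 : ℝ) < 1 - r := by linarith
        rw [← mul_div_assoc, le_div_iff₀ h7]
        have h8 : ((m + 1 : ℕ) : ℝ) * (r * τ) = τ + r * τ := by
          push_cast
          rw [hr]
          field_simp
        rw [h8]
        nlinarith [mul_nonneg hinv0.le hτ0]
      linarith
    have hMb : (1 - r) * f0 ≤ M := by
      rw [hM]
      have := mul_nonneg hinv0.le h1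
      linarith
    have hL : (1 - r) * M ^ (m + 1) + r * ((1 - r) * f0) ^ (m + 1) ≤ M ^ (m + 1) := by
      have : ((1 - r) * f0) ^ (m + 1) ≤ M ^ (m + 1) :=
        pow_le_pow_left₀ (by positivity) hMb _
      nlinarith
    refine hL.trans ?_
    -- lower bound for `A`
    have hA2 : f0 ^ (1 + r) * (β - r ^ 2 / 2) ≤ A := by
      have e1 : f1 ^ (1 + r) = f0 ^ (1 + r) * τ ^ (1 + r) := by
        rw [hf1, Real.mul_rpow h0 hτ0]
      have e2 : τ - 1 / (2 * (m : ℝ)) ≤ τ ^ (1 + 1 / (m : ℝ)) := sub_rpow_le hτ0 hm0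
      have e3 : 1 / (2 * (m : ℝ)) = r / 2 := by rw [hr]; field_simp
      rw [e3, ← hr] at e2
      have e4 := Real.rpow_nonneg h0 (1 + r)
      have e5 : β - r ^ 2 / 2 ≤ (1 - r) + r * τ ^ (1 + r) := by
        rw [hβ]
        nlinarith
      rw [hA, e1]
      calc f0 ^ (1 + r) * (β - r ^ 2 / 2) ≤ f0 ^ (1 + r) * ((1 - r) + r * τ ^ (1 + r)) :=
            mul_le_mul_of_nonneg_left e5 e4
        _ = _ := by ring
    have hb2 : 0 ≤ β - r ^ 2 / 2 := by nlinarith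
    have hA3 : f0 ^ (m + 1) * (β - r ^ 2 / 2) ^ m ≤ A ^ m := by
      have e1 : (f0 ^ (1 + r)) ^ m = f0 ^ (m + 1) := by
        rw [← Real.rpow_natCast (f0 ^ (1 + r)) m, ← Real.rpow_mul h0, ← Real.rpow_natCast f0 (m + 1)]
        congr 1
        push_cast
        rw [hr]
        field_simp
      rw [← e1, ← mul_pow]
      exact pow_le_pow_left₀ (mul_nonneg (Real.rpow_nonneg h0 _) hb2) hA2 m
    have hkey : β ^ (m + 1) ≤ (1 - r / 11) * (β - r ^ 2 / 2) ^ m := by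
      refine key_pow hinv0 hinv (by rw [hr]; field_simp) (by linarith) ?_
      have : r * τ ≤ r * (1 / 10) := mul_le_mul_of_nonneg_left hτ1.le hinv0.le
      rw [hβ]; linarith
    calc M ^ (m + 1) = f0 ^ (m + 1) * β ^ (m + 1) := by rw [hM2, mul_pow]
      _ ≤ f0 ^ (m + 1) * ((1 - r / 11) * (β - r ^ 2 / 2) ^ m) := by gcongr
      _ = (1 - r / 11) * (f0 ^ (m + 1) * (β - r ^ 2 / 2) ^ m) := by ring
      _ ≤ (1 - r / 11) * A ^ m := by gcongr

/-- weighted Hoelder inequality on two points -/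
theorem holder2 {r p q : ℝ} (hpq : p.HolderConjugate q) (h0 : 0 ≤ r) (h1 : 0 ≤ 1 - r)
    {G0 G1 H0 H1 : ℝ} (hG0 : 0 ≤ G0) (hG1 : 0 ≤ G1) (hH0 : 0 ≤ H0) (hH1 : 0 ≤ H1) :
    (1 - r) * (G0 * H0) + r * (G1 * H1) ≤
      ((1 - r) * G0 ^ p + r * G1 ^ p) ^ (1 / p) * ((1 - r) * H0 ^ q + r * H1 ^ q) ^ (1 / q) := by
  have hp0 := hpq.pos
  have hq0 := hpq.symm.pos
  have key := Real.inner_le_Lp_mul_Lq_of_nonneg (Finset.univ : Finset (Fin 2))
    (f := ![(1 - r) ^ (1 / p) * G0, r ^ (1 / p) * G1])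
    (g := ![(1 - r) ^ (1 / q) * H0, r ^ (1 / q) * H1]) hpq
    (by
      intro i _
      fin_cases i <;> simp <;> positivity)
    (by
      intro i _
      fin_cases i <;> simp <;> positivity)
  simp only [Fin.sum_univ_two, Matrix.cons_val_zero, Matrix.cons_val_one] at key
  have hw : ∀ {t : ℝ}, 0 ≤ t → ∀ x y : ℝ, t ^ (1 / p) * x * (t ^ (1 / q) * y) = t * (x * y) := by
    intro t ht x y
    have : t ^ (1 / p) * t ^ (1 / q) = t := by
      rw [← Real.rpow_add_of_nonneg ht (by positivity) (by positivity)]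
      have : 1 / p + 1 / q = 1 := by
        have := hpq.inv_add_inv_eq_one
        simpa [one_div] using this
      rw [this, Real.rpow_one]
    calc t ^ (1 / p) * x * (t ^ (1 / q) * y) = (t ^ (1 / p) * t ^ (1 / q)) * (x * y) := by ring
      _ = _ := by rw [this]
  have hx : ∀ {a : ℝ}, 0 < a → ∀ {t : ℝ}, 0 ≤ t → ∀ {x : ℝ}, 0 ≤ x →
      (t ^ (1 / a) * x) ^ a = t * x ^ a := by
    intro a ha t ht x hx
    rw [Real.mul_rpow (by positivity) hx, ← Real.rpow_mul ht, one_div, inv_mul_cancel₀ ha.ne',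
      Real.rpow_one]
  rw [hw h1, hw h0, hx hp0 h1 hG0, hx hp0 h0 hG1, hx hq0 h1 hH0, hx hq0 h0 hH1] at key
  exact key

/-- **The two-point inequality.** -/
theorem two_point {m : ℕ} (hm : 10 ≤ m) {F0 F1 G0 G1 : ℝ} (hF0 : 0 ≤ F0) (hF1 : 0 ≤ F1)
    (hG0 : 0 ≤ G0) (hG1 : 0 ≤ G1) :
    (1 - 1 / (m : ℝ)) * ((1 - 1 / (m : ℝ)) * (F0 * G0) + 1 / (m : ℝ) * (F0 * G1)) +
        1 / (m : ℝ) * ((1 - 1 / (m : ℝ)) * (F1 * G0)) ≤
      (1 - 1 / (22 * (m : ℝ) ^ 2)) *
        (((1 - 1 / (m : ℝ)) * F0 ^ (1 + 1 / (m : ℝ)) + 1 / (m : ℝ) * F1 ^ (1 + 1 / (m : ℝ))) ^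
          (1 / (1 + 1 / (m : ℝ))) *
        ((1 - 1 / (m : ℝ)) * G0 ^ (1 + 1 / (m : ℝ)) + 1 / (m : ℝ) * G1 ^ (1 + 1 / (m : ℝ))) ^
          (1 / (1 + 1 / (m : ℝ)))) := by
  have hm' : (10 : ℝ) ≤ m := by exact_mod_cast hm
  have hm0 : (0 : ℝ) < m := by linarith
  have hinv : 1 / (m : ℝ) ≤ 1 / 10 := by
    apply one_div_le_one_div_of_le <;> linarith
  have hinv0 : 0 < 1 / (m : ℝ) := by positivity
  have hsc := scal hm hF0 hF1
  have hc : 1 / (11 * (m : ℝ)) = 1 / (m : ℝ) / 11 := by field_simp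
  have hc2 : 1 / (22 * (m : ℝ) ^ 2) = (1 / (m : ℝ)) ^ 2 / 22 := by field_simp
  have hmr : (m : ℝ) * (1 / (m : ℝ)) = 1 := by field_simp
  have hpq : Real.HolderConjugate (1 + 1 / (m : ℝ)) ((m : ℝ) + 1) := by
    rw [Real.holderConjugate_iff]
    refine ⟨by linarith, ?_⟩
    field_simp
  have hpe : 1 / (1 + 1 / (m : ℝ)) = (m : ℝ) * (1 / ((m : ℝ) + 1)) := by
    field_simp
  rw [hc] at hsc
  rw [hc2]
  generalize hr : 1 / (m : ℝ) = r at *
  have hr1 : 0 ≤ 1 - r := by linarith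
  have hA0 : 0 ≤ (1 - r) * F0 ^ (1 + r) + r * F1 ^ (1 + r) := by
    have := Real.rpow_nonneg hF0 (1 + r)
    have := Real.rpow_nonneg hF1 (1 + r)
    positivity
  have hM0 : 0 ≤ (1 - r) * F0 + r * F1 := by positivity
  have hH1 : 0 ≤ (1 - r) * F0 := by positivity
  have key := holder2 hpq hinv0.le hr1 hG0 hG1 hM0 hH1
  set A := (1 - r) * F0 ^ (1 + r) + r * F1 ^ (1 + r) with hA
  have hg0 : 0 ≤ 1 - r ^ 2 / 22 := by
    have : r ^ 2 ≤ (1 / 10) ^ 2 := pow_le_pow_left₀ hinv0.le hinv 2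
    linarith
  have hg : 1 - r / 11 ≤ (1 - r ^ 2 / 22) ^ (m + 1) := by
    have h2 := one_add_mul_le_pow (a := -(r ^ 2 / 22)) (by
      have : r ^ 2 ≤ (1 / 10) ^ 2 := pow_le_pow_left₀ hinv0.le hinv 2
      linarith) (m + 1)
    have h3 : ((m + 1 : ℕ) : ℝ) * (-(r ^ 2 / 22)) = -((m * r) * r + r ^ 2) / 22 := by
      push_cast
      ring
    rw [h3, hmr] at h2
    have h4 : r ^ 2 ≤ r := by nlinarith
    have h5 : 1 + -(r ^ 2 / 22) = 1 - r ^ 2 / 22 := by ring
    rw [h5] at h2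
    linarith
  have hS : ((1 - r) * ((1 - r) * F0 + r * F1) ^ ((m : ℝ) + 1) +
      r * ((1 - r) * F0) ^ ((m : ℝ) + 1)) ^ (1 / ((m : ℝ) + 1)) ≤
      (1 - r ^ 2 / 22) * A ^ (1 / (1 + r)) := by
    have e1 : ∀ x : ℝ, x ^ ((m : ℝ) + 1) = x ^ (m + 1) := by
      intro x
      rw [← Real.rpow_natCast x (m + 1)]
      push_cast
      rfl
    rw [e1, e1]
    have e2 : (1 - r) * ((1 - r) * F0 + r * F1) ^ (m + 1) + r * ((1 - r) * F0) ^ (m + 1) ≤
        (1 - r ^ 2 / 22) ^ (m + 1) * A ^ m := by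
      refine hsc.trans ?_
      have : 0 ≤ A ^ m := by positivity
      exact mul_le_mul_of_nonneg_right hg this
    have e3 : (1 - r ^ 2 / 22) * A ^ (1 / (1 + r)) =
        ((1 - r ^ 2 / 22) ^ (m + 1) * A ^ m) ^ (1 / ((m : ℝ) + 1)) := by
      rw [Real.mul_rpow (by positivity) (by positivity), hpe, Real.rpow_mul hA0,
        Real.rpow_natCast, ← Real.rpow_natCast (1 - r ^ 2 / 22) (m + 1), ← Real.rpow_mul hg0]
      push_cast
      rw [mul_one_div_cancel (by positivity), Real.rpow_one]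
    rw [e3]
    exact Real.rpow_le_rpow (by positivity) e2 (by positivity)
  have hGn : 0 ≤ ((1 - r) * G0 ^ (1 + r) + r * G1 ^ (1 + r)) ^ (1 / (1 + r)) := by
    apply Real.rpow_nonneg
    have := Real.rpow_nonneg hG0 (1 + r)
    have := Real.rpow_nonneg hG1 (1 + r)
    positivity
  calc (1 - r) * ((1 - r) * (F0 * G0) + r * (F0 * G1)) + r * ((1 - r) * (F1 * G0))
      = (1 - r) * (G0 * ((1 - r) * F0 + r * F1)) + r * (G1 * ((1 - r) * F0)) := by ring
    _ ≤ _ := key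
    _ ≤ ((1 - r) * G0 ^ (1 + r) + r * G1 ^ (1 + r)) ^ (1 / (1 + r)) *
        ((1 - r ^ 2 / 22) * A ^ (1 / (1 + r))) := mul_le_mul_of_nonneg_left hS hGn
    _ = _ := by ring

end Pool.Agent.W959
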