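import Pool.Agent.W921.VP.DefsC

set_option autoImplicit false

/-!
Project VP, part AT1: infinitely many non-isolated classes of twins give a perfect family.
-/

namespace Pool.Agent.W959.VPAT1

open FirstOrder Set
open Pool.Agent.W921.VP

section gen

variable {L : FirstOrder.Language.{0, 0}} {M N : Type}

theorem sw_map (e : M ≃ N) (x y z : M) : e (sw x y z) = sw (e x) (e y) (e z) := by
  unfold sw
  split_ifs <;> simp_all

theorem tw_iso (S : L.Structure M) (S' : L.Structure N) (e : M ≃ N) {n : ℕ} (R : L.Relations n)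
    (h : ∀ s : Fin n → M, S.RelMap R s ↔ S'.RelMap R (fun i => e (s i))) (x y : M) :
    Tw S R x y ↔ Tw S' R (e x) (e y) := by
  constructor
  · intro hx s
    have := hx (fun i => e.symm (s i))
    rw [h, h] at this
    simp only [sw_map, Equiv.apply_symm_apply] at this
    exact this
  · intro hx s
    rw [h, h]
    simp only [sw_map]
    exact hx (fun i => e (s i))

theorem twA_iso (S : L.Structure M) (S' : L.Structure N) (e : M ≃ N)
    (h : ∀ (n : ℕ) (R : L.Relations n) (s : Fin n → M),
      S.RelMap R s ↔ S'.RelMap R (fun i => e (s i))) (x y : M) :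
    TwA S x y ↔ TwA S' (e x) (e y) := by
  refine forall_congr' fun R => ?_
  exact tw_iso S S' e R.2 (h R.1 R.2) x y

theorem nonIso_iso (S : L.Structure M) (S' : L.Structure N) (e : M ≃ N)
    (h : ∀ (n : ℕ) (R : L.Relations n) (s : Fin n → M),
      S.RelMap R s ↔ S'.RelMap R (fun i => e (s i))) (x : M) :
    NonIso S x → NonIso S' (e x) := by
  intro hx F
  obtain ⟨y, hy, hy'⟩ := hx F
  refine ⟨e y, fun R hR => ?_, ?_⟩
  · exact (tw_iso S S' e R.2 (h R.1 R.2) x y).1 (hy R hR)
  · rwa [← twA_iso S S' e h]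

variable (hs : S_SW)
include hs

theorem tw_refl (S : L.Structure M) {n : ℕ} (R : L.Relations n) (x : M) : Tw S R x x :=
  (hs L M S n R).1.refl x

theorem tw_symm (S : L.Structure M) {n : ℕ} (R : L.Relations n) {x y : M} (h : Tw S R x y) :
    Tw S R y x := (hs L M S n R).1.symm h

theorem tw_trans (S : L.Structure M) {n : ℕ} (R : L.Relations n) {x y z : M} (h : Tw S R x y)
    (h' : Tw S R y z) : Tw S R x z := (hs L M S n R).1.trans h h'

theorem a_refl (S : L.Structure M) (x : M) : TwA S x x := fun R => tw_refl hs S R.2 x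

theorem a_symm (S : L.Structure M) {x y : M} (h : TwA S x y) : TwA S y x :=
  fun R => tw_symm hs S R.2 (h R)

theorem a_trans (S : L.Structure M) {x y z : M} (h : TwA S x y) (h' : TwA S y z) : TwA S x z :=
  fun R => tw_trans hs S R.2 (h R) (h' R)

theorem f_refl (S : L.Structure M) (F : Finset (Sym L)) (x : M) : TwF S F x x :=
  fun R _ => tw_refl hs S R.2 x

theorem f_symm (S : L.Structure M) (F : Finset (Sym L)) {x y : M} (h : TwF S F x y) :
    TwF S F y x := fun R hR => tw_symm hs S R.2 (h R hR)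

theorem f_trans (S : L.Structure M) (F : Finset (Sym L)) {x y z : M} (h : TwF S F x y)
    (h' : TwF S F y z) : TwF S F x z := fun R hR => tw_trans hs S R.2 (h R hR) (h' R hR)

/-- Isolation depends on the class only. -/
theorem nonIso_twA (S : L.Structure M) {x y : M} (h : TwA S x y) (hx : NonIso S x) :
    NonIso S y := by
  intro F
  obtain ⟨z, hz, hz'⟩ := hx F
  refine ⟨z, f_trans hs S F (fun R _ => tw_symm hs S R.2 (h R)) hz, fun h' => hz' ?_⟩
  exact a_trans hs S h h'

/-- A class of a finite sublanguage which contains a non-isolated point is not a finite union of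
classes of twins. -/
theorem not_fin (S : L.Structure M) (F : Finset (Sym L)) (y : M) (hy : NonIso S y) (P : Set M)
    (hP : P.Finite) (h : ∀ w, TwF S F y w → ∃ p ∈ P, TwA S w p) : False := by
  classical
  have hR : ∀ p : M, ∃ R : Sym L, ¬ TwA S p y → ¬ Tw S R.2 p y := by
    intro p
    by_cases hp : TwA S p y
    · by_cases hne : Nonempty (Sym L)
      · exact ⟨hne.some, fun h => absurd hp h⟩
      · exfalso
        obtain ⟨z, _, hz⟩ := hy ∅
        exact hz (fun R => (hne ⟨R⟩).elim)
    · have hp' := hp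
      unfold TwA at hp'
      push Not at hp'
      obtain ⟨R, hR⟩ := hp'
      exact ⟨R, fun _ => hR⟩
  choose R hR using hR
  obtain ⟨w, hw, hw'⟩ := hy (F ∪ hP.toFinset.image R)
  obtain ⟨p, hp, hwp⟩ := h w (fun Q hQ => hw Q (Finset.mem_union_left _ hQ))
  have h1 : ¬ TwA S p y := fun h1 => hw' (a_symm hs S (a_trans hs S hwp h1))
  refine hR p h1 ?_
  have h2 : Tw S (R p).2 y w := hw (R p) (Finset.mem_union_right _
    (Finset.mem_image_of_mem _ (hP.mem_toFinset.2 hp)))
  exact tw_symm hs S _ (tw_trans hs S _ h2 (hwp (R p)))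

end gen

section fam

variable {L : FirstOrder.Language.{0, 0}}

/-- The allowed points. -/
def U (S : L.Structure ℕ) (x : ℕ → ℕ) : Set (ℕ × ℕ) :=
  {v | (¬ NonIso S v.1 ∧ v.2 = 0) ∨ (NonIso S v.1 ∧ ∀ s, ¬ TwA S v.1 (x (s + 1))) ∨
    ∃ s, v.1 = x (s + 1) ∧ v.2 ≤ 2 * s + 1}

open Classical in
/-- The colours. -/
noncomputable def col (x : ℕ → ℕ) (X : ℕ → Bool) (v : ℕ × ℕ) : ℕ :=
  if ∃ s, v.1 = x (s + 1) ∧ v.2 = 2 * s + 1 ∧ X s = false then x 0 else v.1

theorem col_cases (x : ℕ → ℕ) (X : ℕ → Bool) (v : ℕ × ℕ) : col x X v = x 0 ∨ col x X v = v.1 := by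
  unfold col
  split_ifs
  · exact Or.inl rfl
  · exact Or.inr rfl

theorem col_zero (x : ℕ → ℕ) (X : ℕ → Bool) (y : ℕ) : col x X (y, 0) = y := by
  unfold col
  rw [if_neg]
  rintro ⟨s, _, h, _⟩
  simp at h

theorem col_other (x : ℕ → ℕ) (X : ℕ → Bool) (y k : ℕ) (h : ∀ s, y ≠ x (s + 1)) :
    col x X (y, k) = y := by
  unfold col
  rw [if_neg]
  rintro ⟨s, h', _⟩
  exact h s h'

theorem col_cont (x : ℕ → ℕ) (v : ℕ × ℕ) :
    Continuous fun X => col x X v := by
  by_cases h : ∃ s, v.1 = x (s + 1) ∧ v.2 = 2 * s + 1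
  · obtain ⟨s, h1, h2⟩ := h
    have : (fun X => col x X v) = fun X : ℕ → Bool => if X s = false then x 0 else v.1 := by
      funext X
      unfold col
      by_cases hX : X s = false
      · rw [if_pos hX, if_pos ⟨s, h1, h2, hX⟩]
      · rw [if_neg hX, if_neg]
        rintro ⟨s', h1', h2', h3'⟩
        have : s' = s := by omega
        rw [this] at h3'
        exact hX h3'
    rw [this]
    exact (continuous_of_discreteTopology (f := fun b : Bool => if b = false then x 0 else v.1)).comp
      (continuous_apply s)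
  · have : (fun X => col x X v) = fun _ : ℕ → Bool => v.1 := by
      funext X
      unfold col
      rw [if_neg]
      rintro ⟨s', h1', h2', _⟩
      exact h ⟨s', h1', h2'⟩
    rw [this]
    exact continuous_const

variable (hs : S_SW)

theorem inj_of (hs : S_SW) (S : L.Structure ℕ) (x : ℕ → ℕ)
    (hx : ∀ i j, i ≠ j → ¬ TwA S (x i) (x j)) : Function.Injective x := by
  intro i j hij
  by_contra h
  exact hx i j h (hij ▸ a_refl hs S (x i))

/-- Every point is twin to a colour. -/
theorem sur (hs : S_SW) (S : L.Structure ℕ) (x : ℕ → ℕ) (X : ℕ → Bool) (w : ℕ) :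
    ∃ v ∈ U S x, TwA S w (col x X v) := by
  by_cases hw : NonIso S w
  · by_cases h : ∃ s, TwA S w (x (s + 1))
    · obtain ⟨s, h⟩ := h
      refine ⟨(x (s + 1), 0), Or.inr (Or.inr ⟨s, rfl, by simp⟩), ?_⟩
      rw [col_zero]
      exact h
    · push Not at h
      refine ⟨(w, 0), Or.inr (Or.inl ⟨hw, h⟩), ?_⟩
      rw [col_zero]
      exact a_refl hs S w
  · refine ⟨(w, 0), Or.inl ⟨hw, rfl⟩, ?_⟩
    rw [col_zero]
    exact a_refl hs S w

theorem mat_aux (hs : S_SW) (S : L.Structure ℕ) (x : ℕ → ℕ) (hn : ∀ i, NonIso S (x i))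
    (X : ℕ → Bool) (F : Finset (Sym L)) (z : ℕ) :
    Set.encard {v : U S x | TwF S F (col x X v) z} = Set.encard {y : ℕ | TwF S F y z} := by
  by_cases h : ∃ y, NonIso S y ∧ TwF S F y z
  · obtain ⟨y, hy, hyz⟩ := h
    have h1 : {y : ℕ | TwF S F y z}.Infinite := by
      intro hfin
      refine not_fin hs S F y hy _ hfin fun w hw => ⟨w, ?_, a_refl hs S w⟩
      exact f_trans hs S F (f_symm hs S F hw) hyz
    have h2 : {v : U S x | TwF S F (col x X v) z}.Infinite := by
      intro hfin
      refine not_fin hs S F y hy _ (hfin.image fun v : U S x => col x X v) fun w hw => ?_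
      obtain ⟨v, hv, hwv⟩ := sur hs S x X w
      refine ⟨col x X v, ⟨⟨v, hv⟩, ?_, rfl⟩, hwv⟩
      have : TwF S F (col x X v) w := fun R _ => tw_symm hs S R.2 (hwv R)
      exact f_trans hs S F this (f_trans hs S F (f_symm hs S F hw) hyz)
    rw [h1.encard_eq, h2.encard_eq]
  · push Not at h
    have hcol : ∀ v : U S x, TwF S F (col x X v) z → col x X v = v.1.1 ∧ v.1.2 = 0 ∧
        ¬ NonIso S v.1.1 := by
      intro v hv
      have h1 : ¬ NonIso S (col x X v) := fun h1 => h _ h1 hv
      rcases col_cases x X v with h2 | h2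
      · exact absurd (h2 ▸ hn 0) h1
      · rw [h2] at h1
        refine ⟨h2, ?_, h1⟩
        rcases v.2 with h3 | h3 | ⟨s, h3, h4⟩
        · exact h3.2
        · exact absurd h3.1 h1
        · exact absurd (h3 ▸ hn (s + 1)) h1
    have hinj : Set.InjOn (fun v : U S x => v.1.1) {v : U S x | TwF S F (col x X v) z} := by
      intro v hv w hw hvw
      apply Subtype.ext
      apply Prod.ext
      · exact hvw
      · rw [(hcol v hv).2.1, (hcol w hw).2.1]
    rw [← hinj.encard_image]
    congr 1
    ext y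
    constructor
    · rintro ⟨v, hv, rfl⟩
      have := hv
      rw [mem_ofPred_eq, (hcol v hv).1] at this
      exact this
    · intro hy
      have hy' : ¬ NonIso S y := fun h' => h y h' hy
      refine ⟨⟨(y, 0), Or.inl ⟨hy', rfl⟩⟩, ?_, rfl⟩
      show TwF S F (col x X (y, 0)) z
      rw [col_zero]
      exact hy

theorem mat (hs : S_SW) (S : L.Structure ℕ) (x : ℕ → ℕ) (hn : ∀ i, NonIso S (x i))
    (X : ℕ → Bool) (g : ℕ ≃ U S x) : Mat S (fun u => col x X (g u)) := by
  intro F z
  rw [← mat_aux hs S x hn X F z]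
  have : {v : U S x | TwF S F (col x X v) z} = g '' {u : ℕ | TwF S F (col x X (g u)) z} := by
    ext v
    constructor
    · intro hv
      exact ⟨g.symm v, by simpa using hv, by simp⟩
    · rintro ⟨u, hu, rfl⟩
      exact hu
  rw [this, g.injective.encard_image]

/-- The class of `x (s + 1)`. -/
theorem cls (hs : S_SW) (S : L.Structure ℕ) (x : ℕ → ℕ) (hn : ∀ i, NonIso S (x i))
    (hx : ∀ i j, i ≠ j → ¬ TwA S (x i) (x j)) (X : ℕ → Bool) (s : ℕ) :
    Set.encard {v : U S x | TwA S (col x X v) (x (s + 1))} =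
      ((if X s = true then 2 * s + 2 else 2 * s + 1 : ℕ) : ℕ∞) := by
  have hinj := inj_of hs S x hx
  have key : ∀ v : U S x, TwA S (col x X v) (x (s + 1)) ↔
      v.1.1 = x (s + 1) ∧ v.1.2 < (if X s = true then 2 * s + 2 else 2 * s + 1) := by
    intro v
    constructor
    · intro hv
      rcases col_cases x X v with h2 | h2
      · rw [h2] at hv
        exact absurd hv (hx _ _ (by omega))
      · have hv' := hv
        rw [h2] at hv'
        have h3 : NonIso S v.1.1 := nonIso_twA hs S (a_symm hs S hv') (hn _)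
        rcases v.2 with h4 | h4 | ⟨s', h4, h5⟩
        · exact absurd h3 h4.1
        · exact absurd hv' (h4.2 s)
        · rw [h4] at hv'
          have h6 : s' = s := by
            by_contra hne
            exact hx (s' + 1) (s + 1) (by omega) hv'
          subst h6
          refine ⟨h4, ?_⟩
          split_ifs with hX
          · omega
          · by_contra hlt
            have h7 : v.1.2 = 2 * s' + 1 := by omega
            have h8 : col x X v = x 0 := by
              unfold col
              rw [if_pos]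
              exact ⟨s', h4, h7, by simpa using hX⟩
            rw [h8] at hv
            exact hx _ _ (by omega) hv
    · rintro ⟨h1, h2⟩
      have h3 : col x X v = v.1.1 := by
        unfold col
        rw [if_neg]
        rintro ⟨s', h4, h5, h6⟩
        have h7 : s' = s := by
          have := hinj (h4.symm.trans h1)
          omega
        subst h7
        rw [if_neg (by simp [h6])] at h2
        omega
      rw [h3, h1]
      exact a_refl hs S _
  have hfin : {v : U S x | TwA S (col x X v) (x (s + 1))} =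
      Set.range (fun i : Fin (if X s = true then 2 * s + 2 else 2 * s + 1) =>
        (⟨(x (s + 1), i.1), Or.inr (Or.inr ⟨s, rfl, by
          have := i.2
          split_ifs at this <;> simp only <;> omega⟩)⟩ : U S x)) := by
    ext v
    rw [mem_ofPred_eq, key v]
    constructor
    · rintro ⟨h1, h2⟩
      refine ⟨⟨v.1.2, h2⟩, ?_⟩
      apply Subtype.ext
      exact Prod.ext h1.symm rfl
    · rintro ⟨i, rfl⟩
      exact ⟨rfl, i.2⟩
  rw [hfin, ← Set.image_univ, Function.Injective.encard_image]
  · rw [Set.encard_univ]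
    simp
  · intro i j hij
    have := congrArg (fun v : U S x => v.1.2) hij
    exact Fin.ext this

/-- The other non-isolated classes. -/
theorem cls_inf (hs : S_SW) (S : L.Structure ℕ) (x : ℕ → ℕ) (X : ℕ → Bool) (y : ℕ)
    (hy : NonIso S y) (hy' : ∀ s, ¬ TwA S y (x (s + 1))) :
    Set.encard {v : U S x | TwA S (col x X v) y} = ⊤ := by
  rw [Set.encard_eq_top_iff]
  refine Set.infinite_of_injective_forall_mem (f := fun k : ℕ =>
    (⟨(y, k), Or.inr (Or.inl ⟨hy, hy'⟩)⟩ : U S x)) ?_ ?_
  · intro i j hij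
    exact congrArg (fun v : U S x => v.1.2) hij
  · intro k
    show TwA S (col x X (y, k)) y
    rw [col_other x X y k (fun s h => hy' s (h ▸ a_refl hs S y))]
    exact a_refl hs S y

theorem tw_rec (hs : S_SW) (hr : S_RC) [L.IsRelational] (S : L.Structure ℕ) (c : ℕ → ℕ)
    (hc : Mat S c) (R : Sym L) (u v : ℕ) :
    Tw (recol S c) R.2 u v ↔ Tw S R.2 (c u) (c v) := by
  obtain ⟨e, he, he'⟩ := hr L ℕ ℕ S c inferInstance inferInstance hc {R}
  rw [tw_iso (recol S c) S e R.2 (he' R (Finset.mem_singleton_self R)) u v]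
  have h1 := he u R (Finset.mem_singleton_self R)
  have h2 := he v R (Finset.mem_singleton_self R)
  constructor
  · intro h
    exact tw_trans hs S _ (tw_symm hs S _ h1) (tw_trans hs S _ h h2)
  · intro h
    exact tw_trans hs S _ h1 (tw_trans hs S _ h (tw_symm hs S _ h2))

theorem twA_rec (hs : S_SW) (hr : S_RC) [L.IsRelational] (S : L.Structure ℕ) (c : ℕ → ℕ)
    (hc : Mat S c) (u v : ℕ) : TwA (recol S c) u v ↔ TwA S (c u) (c v) :=
  forall_congr' fun R => tw_rec hs hr S c hc R u v

theorem nonIso_rec (hs : S_SW) (hr : S_RC) [L.IsRelational] (S : L.Structure ℕ) (c : ℕ → ℕ)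
    (hc : Mat S c) (hsur : ∀ w, ∃ v, TwA S w (c v)) (u : ℕ) :
    NonIso (recol S c) u ↔ NonIso S (c u) := by
  constructor
  · intro h F
    obtain ⟨v, hv, hv'⟩ := h F
    refine ⟨c v, fun R hR => (tw_rec hs hr S c hc R u v).1 (hv R hR), ?_⟩
    rwa [← twA_rec hs hr S c hc]
  · intro h F
    obtain ⟨w, hw, hw'⟩ := h F
    obtain ⟨v, hv⟩ := hsur w
    refine ⟨v, fun R hR => (tw_rec hs hr S c hc R u v).2 ?_, ?_⟩
    · exact tw_trans hs S _ (hw R hR) (hv R)
    · rw [twA_rec hs hr S c hc]
      intro h'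
      exact hw' (a_trans hs S h' (a_symm hs S hv))

/-- The sizes of the non-isolated classes. -/
def Sz (S : L.Structure ℕ) (k : ℕ) : Prop :=
  ∃ u, NonIso S u ∧ Set.encard {v | TwA S v u} = (k : ℕ∞)

theorem sz_iso (S S' : L.Structure ℕ) (h : Isom S S') (k : ℕ) : Sz S k → Sz S' k := by
  obtain ⟨e, he⟩ := h
  rintro ⟨u, hu, hk⟩
  refine ⟨e u, nonIso_iso S S' e he u hu, ?_⟩
  rw [← hk, ← e.injective.encard_image {v | TwA S v u}]
  congr 1
  ext v
  constructor
  · intro hv
    refine ⟨e.symm v, ?_, by simp⟩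
    show TwA S (e.symm v) u
    rw [twA_iso S S' e he]
    simpa using hv
  · rintro ⟨w, hw, rfl⟩
    exact (twA_iso S S' e he w u).1 hw

theorem sz_rec (hs : S_SW) (hr : S_RC) [L.IsRelational] (S : L.Structure ℕ) (x : ℕ → ℕ)
    (hn : ∀ i, NonIso S (x i)) (hx : ∀ i j, i ≠ j → ¬ TwA S (x i) (x j)) (X : ℕ → Bool)
    (g : ℕ ≃ U S x) (k : ℕ) :
    Sz (recol S (fun u => col x X (g u))) k ↔
      ∃ s, k = if X s = true then 2 * s + 2 else 2 * s + 1 := by
  have hm := mat hs S x hn X g
  have hsur : ∀ w, ∃ v, TwA S w (col x X (g v)) := by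
    intro w
    obtain ⟨v, hv, hwv⟩ := sur hs S x X w
    exact ⟨g.symm ⟨v, hv⟩, by simpa using hwv⟩
  have henc : ∀ y : ℕ, Set.encard {v : U S x | TwA S (col x X v) y} =
      Set.encard {v : ℕ | TwA S (col x X (g v)) y} := by
    intro y
    rw [← g.injective.encard_image]
    congr 1
    ext v
    constructor
    · intro hv
      exact ⟨g.symm v, by simpa using hv, by simp⟩
    · rintro ⟨u, hu, rfl⟩
      exact hu
  have hset : ∀ u : ℕ, {v | TwA (recol S (fun u => col x X (g u))) v u} =
      {v : ℕ | TwA S (col x X (g v)) (col x X (g u))} := by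
    intro u
    ext v
    exact twA_rec hs hr S _ hm v u
  constructor
  · rintro ⟨u, hu, hk⟩
    rw [nonIso_rec hs hr S _ hm hsur] at hu
    rw [hset, ← henc] at hk
    by_cases h : ∃ s, TwA S (col x X (g u)) (x (s + 1))
    · obtain ⟨s, h⟩ := h
      refine ⟨s, ?_⟩
      have h1 : {v : U S x | TwA S (col x X v) (col x X (g u))} =
          {v : U S x | TwA S (col x X v) (x (s + 1))} := by
        ext v
        exact ⟨fun hv => a_trans hs S hv h, fun hv => a_trans hs S hv (a_symm hs S h)⟩
      rw [h1, cls hs S x hn hx X s] at hk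
      exact_mod_cast hk.symm
    · push Not at h
      rw [cls_inf hs S x X _ hu h] at hk
      exact absurd hk.symm (ENat.natCast_ne_top k)
  · rintro ⟨s, rfl⟩
    obtain ⟨u, hu⟩ := hsur (x (s + 1))
    refine ⟨u, ?_, ?_⟩
    · rw [nonIso_rec hs hr S _ hm hsur]
      exact nonIso_twA hs S hu (hn _)
    · rw [hset, ← henc]
      have h1 : {v : U S x | TwA S (col x X v) (col x X (g u))} =
          {v : U S x | TwA S (col x X v) (x (s + 1))} := by
        ext v
        exact ⟨fun hv => a_trans hs S hv (a_symm hs S hu), fun hv => a_trans hs S hv hu⟩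
      rw [h1, cls hs S x hn hx X s]

theorem eq_of_sz (X Y : ℕ → Bool)
    (h : ∀ k, (∃ s, k = if X s = true then 2 * s + 2 else 2 * s + 1) →
      ∃ s, k = if Y s = true then 2 * s + 2 else 2 * s + 1) : X = Y := by
  funext s
  obtain ⟨s', hs'⟩ := h _ ⟨s, rfl⟩
  by_cases hX : X s = true
  · rw [if_pos hX] at hs'
    split_ifs at hs' with hY
    · have : s' = s := by omega
      subst this
      rw [hX, hY]
    · omega
  · rw [if_neg hX] at hs'
    split_ifs at hs' with hY
    · omega
    · have : s' = s := by omega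
      subst this
      rw [Bool.not_eq_true] at hX hY
      rw [hX, hY]

end fam

theorem task (hs : S_SW) (hf : S_FIN) (hr : S_RC) : S_AT1 := by
  intro L _ hL T S hS _ ⟨x, hn, hx⟩
  have := hL
  have hinf : Infinite (U S x) := by
    refine Infinite.of_injective (fun k : ℕ => (⟨(x 0, k), Or.inr (Or.inl ⟨hn 0, fun s =>
      hx 0 (s + 1) (by omega)⟩)⟩ : U S x)) ?_
    intro i j hij
    exact congrArg (fun v : U S x => v.1.2) hij
  obtain ⟨hden⟩ := nonempty_denumerable (U S x)
  let g : ℕ ≃ U S x := (Denumerable.eqv (U S x)).symm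
  refine ⟨fun X => recol S (fun u => col x X (g u)), ?_, ?_, ?_⟩
  · intro X
    refine hf L hL T ℕ ℕ S _ (fun F => ?_) hS
    obtain ⟨e, _, he⟩ := hr L ℕ ℕ S _ inferInstance inferInstance (mat hs S x hn X g) F
    refine ⟨e.symm, fun R hR s => ?_⟩
    rw [he R hR]
    simp
  · intro X Y h
    refine eq_of_sz X Y fun k hk => ?_
    rw [← sz_rec hs hr S x hn hx X g k] at hk
    rw [← sz_rec hs hr S x hn hx Y g k]
    exact sz_iso _ _ h k hk
  · intro n R a
    have hc : Continuous fun X : ℕ → Bool => fun i => col x X (g (a i)) :=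
      continuous_pi fun i => col_cont x (g (a i))
    have : {X | (recol S (fun u => col x X (g u))).RelMap R a} =
        (fun X : ℕ → Bool => fun i => col x X (g (a i))) ⁻¹'
          {b | ∃ s' : Fin n → ℕ, (∀ i j, a i = a j ↔ s' i = s' j) ∧
            (∀ i, Tw S R (s' i) (b i)) ∧ S.RelMap R s'} := rfl
    rw [this]
    exact (isClopen_discrete _).preimage hc

end Pool.Agent.W959.VPAT1
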